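import Mathlib

/-!
Basic tools for rainbow cycles in edge colourings of complete graphs.
-/

namespace Pool.Agent.Helper72.Rainbow

open SimpleGraph

/-- The colouring `c` (of the edges of the complete graph on `V`) has a rainbow cycle of length
`k`: a cycle of length `k` in the complete graph whose edges have pairwise distinct colours. -/
def HasRainbowCycle {V C : Type*} (c : Sym2 V → C) (k : ℕ) : Prop :=
  ∃ (u : V) (w : (⊤ : SimpleGraph V).Walk u u),
    w.IsCycle ∧ w.length = k ∧ (w.edges.map c).Nodup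

/-- There is a rainbow path from `a` to the base point `b` with `l` edges, with vertices in `S`
and colours in `K`. -/
def RP {V C : Type*} (c : Sym2 V → C) (b a : V) (l : ℕ) (S : Set V) (K : Set C) : Prop :=
  ∃ p : (⊤ : SimpleGraph V).Walk a b, p.IsPath ∧ p.length = l ∧ (∀ x ∈ p.support, x ∈ S) ∧
    (p.edges.map c).Nodup ∧ ∀ e ∈ p.edges, c e ∈ K

variable {V C : Type*} {c : Sym2 V → C}

theorem RP.nil (b : V) : RP c b b 0 {b} ∅ :=
  ⟨Walk.nil, by simp, by simp, by simp, by simp, by simp⟩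

theorem RP.mono {b a : V} {l : ℕ} {S S' : Set V} {K K' : Set C} (h : RP c b a l S K)
    (hS : S ⊆ S') (hK : K ⊆ K') : RP c b a l S' K' := by
  obtain ⟨p, h1, h2, h3, h4, h5⟩ := h
  exact ⟨p, h1, h2, fun x hx => hS (h3 x hx), h4, fun e he => hK (h5 e he)⟩

theorem RP.cons {b a d : V} {l : ℕ} {S : Set V} {K : Set C} (h : RP c b a l S K)
    (hd : d ∉ S) (hc : c s(d, a) ∉ K) :
    RP c b d (l + 1) (insert d S) (insert (c s(d, a)) K) := by
  obtain ⟨p, h1, h2, h3, h4, h5⟩ := h
  have hda : d ≠ a := by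
    rintro rfl
    exact hd (h3 _ (Walk.start_mem_support p))
  have hadj : (⊤ : SimpleGraph V).Adj d a := by simpa using hda
  refine ⟨Walk.cons hadj p, ?_, ?_, ?_, ?_, ?_⟩
  · rw [Walk.cons_isPath_iff]
    exact ⟨h1, fun h => hd (h3 _ h)⟩
  · simp [h2]
  · intro x hx
    rw [Walk.support_cons, List.mem_cons] at hx
    rcases hx with rfl | hx
    · exact Set.mem_insert _ _
    · exact Set.mem_insert_of_mem _ (h3 x hx)
  · rw [Walk.edges_cons, List.map_cons, List.nodup_cons]
    refine ⟨?_, h4⟩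
    intro hmem
    rw [List.mem_map] at hmem
    obtain ⟨e, he, hee⟩ := hmem
    exact hc (hee ▸ h5 e he)
  · intro e he
    rw [Walk.edges_cons, List.mem_cons] at he
    rcases he with rfl | he
    · exact Set.mem_insert _ _
    · exact Set.mem_insert_of_mem _ (h5 e he)

theorem RP.close {b a : V} {l : ℕ} {S : Set V} {K : Set C} (h : RP c b a l S K)
    (hl : 2 ≤ l) (hc : c s(b, a) ∉ K) : HasRainbowCycle c (l + 1) := by
  obtain ⟨p, h1, h2, h3, h4, h5⟩ := h
  have hba : b ≠ a := by
    rintro rfl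
    have h0 : p.length = 0 := Walk.length_eq_zero_iff.2 (Walk.isPath_iff_nil.1 h1)
    omega
  have hadj : (⊤ : SimpleGraph V).Adj b a := by simpa using hba
  refine ⟨b, Walk.cons hadj p, ?_, ?_, ?_⟩
  · rw [Walk.cons_isCycle_iff]
    refine ⟨h1, fun h => hc (h5 _ h)⟩
  · simp [h2]
  · rw [Walk.edges_cons, List.map_cons, List.nodup_cons]
    refine ⟨?_, h4⟩
    intro hmem
    rw [List.mem_map] at hmem
    obtain ⟨e, he, hee⟩ := hmem
    exact hc (hee ▸ h5 e he)

end Pool.Agent.Helper72.Rainbow
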