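import Mathlib
import Pool.Agent.Helper72.RainbowBasic

/-!
From a rainbow cycle of length `m` to a periodic sequence of vertices.
-/

namespace Pool.Agent.Helper72.Rainbow

open SimpleGraph

/-- A rainbow cycle of length `m` presented as an `m`-periodic sequence of vertices. -/
structure Per {V C : Type*} (c : Sym2 V → C) (m : ℕ) (v : ℤ → V) : Prop where
  hm : 3 ≤ m
  hv : ∀ i j : ℤ, v i = v j ↔ (m : ℤ) ∣ i - j
  he : ∀ i j : ℤ, c s(v i, v (i + 1)) = c s(v j, v (j + 1)) ↔ (m : ℤ) ∣ i - j

variable {V C : Type*} {c : Sym2 V → C}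

theorem exists_per {m : ℕ} (h : HasRainbowCycle c m) : ∃ v : ℤ → V, Per c m v := by
  obtain ⟨u, w, hw, hl, hc⟩ := h
  have hm : 3 ≤ m := hl ▸ hw.three_le_length
  have hm0 : (0 : ℤ) < m := by omega
  have hinj := hw.getVert_injOn'
  -- index function
  have hlt : ∀ i : ℤ, (i % (m : ℤ)).toNat < m := by
    intro i
    have h1 := Int.emod_nonneg i (by omega : (m : ℤ) ≠ 0)
    have h2 := Int.emod_lt_of_pos i hm0
    omega
  have hsucc : ∀ i : ℤ, w.getVert (((i + 1) % (m : ℤ)).toNat) =
      w.getVert ((i % (m : ℤ)).toNat + 1) := by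
    intro i
    have h1 := Int.emod_nonneg i (by omega : (m : ℤ) ≠ 0)
    have h2 := Int.emod_lt_of_pos i hm0
    by_cases hi : i % (m : ℤ) = m - 1
    · have e1 : (i + 1) % (m : ℤ) = 0 := by
        rw [Int.add_emod, hi]
        have : (1 : ℤ) % m = 1 := Int.emod_eq_of_lt (by omega) (by omega)
        rw [this]
        simp
      have e2 : (i % (m : ℤ)).toNat + 1 = w.length := by omega
      rw [e1, e2, Walk.getVert_length]
      simp
    · have e1 : (i + 1) % (m : ℤ) = i % m + 1 := by
        rw [Int.add_emod]
        have : (1 : ℤ) % m = 1 := Int.emod_eq_of_lt (by omega) (by omega)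
        rw [this]
        exact Int.emod_eq_of_lt (by omega) (by omega)
      rw [e1]
      congr 1
      omega
  have key : ∀ i j : ℤ, (i % (m : ℤ)).toNat = (j % (m : ℤ)).toNat ↔ (m : ℤ) ∣ i - j := by
    intro i j
    have h1 := Int.emod_nonneg i (by omega : (m : ℤ) ≠ 0)
    have h2 := Int.emod_nonneg j (by omega : (m : ℤ) ≠ 0)
    constructor
    · intro h
      have h3 : i % (m : ℤ) = j % m := by omega
      exact Int.ModEq.dvd (show Int.ModEq m j i from h3.symm)
    · intro h
      have h3 : j % (m : ℤ) = i % m := (Int.modEq_iff_dvd.2 h)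
      rw [h3]
  refine ⟨fun i => w.getVert ((i % (m : ℤ)).toNat), hm, ?_, ?_⟩
  · intro i j
    rw [← key]
    constructor
    · intro h
      apply hinj _ _ h
      · have := hlt i
        simp only [Set.mem_ofPred_eq]
        omega
      · have := hlt j
        simp only [Set.mem_ofPred_eq]
        omega
    · intro h
      simp only [h]
  · intro i j
    simp only [hsucc]
    rw [← key]
    constructor
    · intro h
      have hi : (i % (m : ℤ)).toNat < w.edges.length := by
        rw [Walk.length_edges, hl]; exact hlt i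
      have hj : (j % (m : ℤ)).toNat < w.edges.length := by
        rw [Walk.length_edges, hl]; exact hlt j
      have h' : (w.edges.map c)[(i % (m : ℤ)).toNat]'(by simpa using hi) =
          (w.edges.map c)[(j % (m : ℤ)).toNat]'(by simpa using hj) := by
        simp only [List.getElem_map, Walk.getElem_edges]
        exact h
      exact (List.Nodup.getElem_inj_iff hc).1 h'
    · intro h
      simp only [h]

end Pool.Agent.Helper72.Rainbow
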