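import Mathlib
import Pool.Agent.Helper72.RainbowSetup

/-!
Rainbow paths along a periodic presentation of a rainbow cycle.
-/

namespace Pool.Agent.Helper72.Rainbow

open SimpleGraph

variable {V C : Type*} {c : Sym2 V → C} {m : ℕ} {v : ℤ → V}

/-- Rainbow path from `v a` to the base point `v b` with `l` edges, with vertices among `v i`,
`i ∈ A`, and colours among the colours of the edges `v i, v (i+1)` with `i ∈ B`. -/
def RPz (c : Sym2 V → C) (v : ℤ → V) (b a : ℤ) (l : ℕ) (A B : Set ℤ) : Prop :=
  RP c (v b) (v a) l (v '' A) ((fun i => c s(v i, v (i + 1))) '' B)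

theorem eq_of_dvd_of_near {m : ℕ} {x y : ℤ} (h : (m : ℤ) ∣ x - y) (h1 : x - m < y)
    (h2 : y < x + m) : y = x := by
  have : x - y = 0 := Int.eq_zero_of_abs_lt_dvd h (by rw [abs_lt]; constructor <;> omega)
  omega

theorem RPz.nil (b : ℤ) : RPz c v b b 0 {b} ∅ := by
  have := RP.nil (c := c) (v b)
  simpa [RPz] using this

theorem RPz.mono {b a : ℤ} {l : ℕ} {A A' B B' : Set ℤ} (h : RPz c v b a l A B)
    (hA : A ⊆ A') (hB : B ⊆ B') : RPz c v b a l A' B' :=
  RP.mono h (Set.image_mono hA) (Set.image_mono hB)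

theorem RPz.cons (P : Per c m v) {b a : ℤ} {l : ℕ} {A B : Set ℤ} (h : RPz c v b a l A B)
    (k j : ℤ) (hk : ∀ a' ∈ A, k - m < a' ∧ a' < k + m ∧ a' ≠ k)
    (hc : c s(v k, v a) = c s(v j, v (j + 1)))
    (hj : ∀ b' ∈ B, j - m < b' ∧ b' < j + m ∧ b' ≠ j) :
    RPz c v b k (l + 1) (insert k A) (insert j B) := by
  have h1 : v k ∉ v '' A := by
    rintro ⟨a', ha', e⟩
    obtain ⟨x, y, z⟩ := hk a' ha'
    exact z (eq_of_dvd_of_near ((P.hv k a').1 e.symm) x y)
  have h2 : c s(v k, v a) ∉ (fun i => c s(v i, v (i + 1))) '' B := by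
    rintro ⟨b', hb', e⟩
    obtain ⟨x, y, z⟩ := hj b' hb'
    rw [hc] at e
    exact z (eq_of_dvd_of_near ((P.he j b').1 e.symm) x y)
  have := RP.cons h h1 h2
  rw [RPz, Set.image_insert_eq, Set.image_insert_eq]
  simpa only [hc] using this

theorem RPz.close (P : Per c m v) {b a : ℤ} {l : ℕ} {A B : Set ℤ} (h : RPz c v b a l A B)
    (hl : 2 ≤ l) (j : ℤ) (hc : c s(v b, v a) = c s(v j, v (j + 1)))
    (hj : ∀ b' ∈ B, j - m < b' ∧ b' < j + m ∧ b' ≠ j) : HasRainbowCycle c (l + 1) := by
  refine RP.close h hl ?_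
  rintro ⟨b', hb', e⟩
  obtain ⟨x, y, z⟩ := hj b' hb'
  rw [hc] at e
  exact z (eq_of_dvd_of_near ((P.he j b').1 e.symm) x y)

/-- closing with an arbitrary colour not on the path -/
theorem RPz.close' {b a : ℤ} {l : ℕ} {A B : Set ℤ} (h : RPz c v b a l A B)
    (hl : 2 ≤ l) (hj : ∀ b' ∈ B, c s(v b, v a) ≠ c s(v b', v (b' + 1))) :
    HasRainbowCycle c (l + 1) := by
  refine RP.close h hl ?_
  rintro ⟨b', hb', e⟩
  exact hj b' hb' e.symm

/-- extend a path by `t` arcs in the forward direction -/
theorem RPz.fwd (P : Per c m v) {b a : ℤ} {l : ℕ} {A B : Set ℤ} (h : RPz c v b a l A B) (t : ℕ)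
    (hA : ∀ a' ∈ A, (a' ≤ a ∨ a + t < a') ∧ a + t - m < a' ∧ a' < a + 1 + m)
    (hB : ∀ b' ∈ B, (b' < a ∨ a + t ≤ b') ∧ a + t - 1 - m < b' ∧ b' < a + m)
    (ht : t < m) :
    RPz c v b (a + t) (l + t) (A ∪ Set.Ioc a (a + t)) (B ∪ Set.Ico a (a + t)) := by
  induction t with
  | zero => simpa using h
  | succ t ih =>
    have ih' := ih (fun a' ha' => by have := hA a' ha'; push_cast at this; omega)
      (fun b' hb' => by have := hB b' hb'; push_cast at this; omega) (by omega)
    have := RPz.cons P ih' (a + t + 1) (a + t) ?_ ?_ ?_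
    · have e : (a + ((t + 1 : ℕ) : ℤ)) = a + t + 1 := by push_cast; ring
      rw [e, ← Nat.add_assoc]
      refine this.mono ?_ ?_
      · rintro x (rfl | hx | hx)
        · right; simp only [Set.mem_Ioc]; omega
        · exact Or.inl hx
        · right; simp only [Set.mem_Ioc] at hx ⊢; omega
      · rintro x (rfl | hx | hx)
        · right; simp only [Set.mem_Ico]; omega
        · exact Or.inl hx
        · right; simp only [Set.mem_Ico] at hx ⊢; omega
    · intro a' ha'
      simp only [Set.mem_union, Set.mem_Ioc] at ha'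
      rcases ha' with ha' | ha'
      · have := hA a' ha'
        push_cast at this
        omega
      · omega
    · rw [Sym2.eq_swap]
    · intro b' hb'
      simp only [Set.mem_union, Set.mem_Ico] at hb'
      rcases hb' with hb' | hb'
      · have := hB b' hb'
        push_cast at this
        omega
      · omega

/-- extend a path by `t` arcs in the backward direction -/
theorem RPz.bwd (P : Per c m v) {b a : ℤ} {l : ℕ} {A B : Set ℤ} (h : RPz c v b a l A B) (t : ℕ)
    (hA : ∀ a' ∈ A, (a ≤ a' ∨ a' < a - t) ∧ a - 1 - m < a' ∧ a' < a - t + m)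
    (hB : ∀ b' ∈ B, (a ≤ b' ∨ b' < a - t) ∧ a - 1 - m < b' ∧ b' < a - t + m)
    (ht : t < m) :
    RPz c v b (a - t) (l + t) (A ∪ Set.Ico (a - t) a) (B ∪ Set.Ico (a - t) a) := by
  induction t with
  | zero => simpa using h
  | succ t ih =>
    have ih' := ih (fun a' ha' => by have := hA a' ha'; push_cast at this; omega)
      (fun b' hb' => by have := hB b' hb'; push_cast at this; omega) (by omega)
    have := RPz.cons P ih' (a - t - 1) (a - t - 1) ?_ ?_ ?_
    · have e : (a - ((t + 1 : ℕ) : ℤ)) = a - t - 1 := by push_cast; ring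
      rw [e, ← Nat.add_assoc]
      refine this.mono ?_ ?_
      · rintro x (rfl | hx | hx)
        · right; simp only [Set.mem_Ico]; omega
        · exact Or.inl hx
        · right; simp only [Set.mem_Ico] at hx ⊢; omega
      · rintro x (rfl | hx | hx)
        · right; simp only [Set.mem_Ico]; omega
        · exact Or.inl hx
        · right; simp only [Set.mem_Ico] at hx ⊢; omega
    · intro a' ha'
      simp only [Set.mem_union, Set.mem_Ico] at ha'
      rcases ha' with ha' | ha'
      · have := hA a' ha'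
        push_cast at this
        omega
      · omega
    · rw [sub_add_cancel]
    · intro b' hb'
      simp only [Set.mem_union, Set.mem_Ico] at hb'
      rcases hb' with hb' | hb'
      · have := hB b' hb'
        push_cast at this
        omega
      · omega

end Pool.Agent.Helper72.Rainbow
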