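import Mathlib
import Pool.Agent.Helper72.RainbowPath

/-!
Missing lengths of rainbow cycles and colours of chords.
-/

namespace Pool.Agent.Helper72.Rainbow

open SimpleGraph

variable {V C : Type*} {c : Sym2 V → C} {m : ℕ} {v : ℤ → V}

theorem Per.arcs (P : Per c m v) (a : ℤ) (t : ℕ) (ht : t < m) :
    RPz c v a (a + t) t (Set.Icc a (a + t)) (Set.Ico a (a + t)) := by
  have h := (RPz.nil (c := c) (v := v) a).fwd P t
    (by intro a' ha'; simp only [Set.mem_singleton_iff] at ha'; omega)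
    (by intro b' hb'; simp at hb') ht
  refine (Nat.zero_add t ▸ h).mono ?_ ?_
  · rintro x (hx | hx)
    · simp only [Set.mem_singleton_iff] at hx; simp only [Set.mem_Icc]; omega
    · simp only [Set.mem_Ioc] at hx; simp only [Set.mem_Icc]; omega
  · rintro x (hx | hx)
    · simp at hx
    · exact hx

theorem Per.shift (P : Per c m v) (i : ℤ) : v (i + m) = v i :=
  (P.hv _ _).2 ⟨1, by ring⟩

theorem Per.color_shift (P : Per c m v) (i : ℤ) :
    c s(v (i + m), v (i + m + 1)) = c s(v i, v (i + 1)) :=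
  (P.he _ _).2 ⟨1, by ring⟩

/-- The chord of an arc path has a colour of the path, if the resulting cycle is not rainbow. -/
theorem Per.chord_color (P : Per c m v) (x : ℤ) (t : ℕ) (ht : t < m) (ht2 : 2 ≤ t)
    (hmiss : ¬ HasRainbowCycle c (t + 1)) :
    ∃ j, x ≤ j ∧ j < x + t ∧ c s(v x, v (x + t)) = c s(v j, v (j + 1)) := by
  by_contra hcon
  push Not at hcon
  exact hmiss ((P.arcs x t ht).close' ht2 (fun b' hb' => hcon b' hb'.1 hb'.2))

theorem miss_add {a b : ℕ} (ha : 1 ≤ a) (hb : 1 ≤ b) (h1 : ¬ HasRainbowCycle c (a + 2))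
    (h2 : ¬ HasRainbowCycle c (b + 2)) : ¬ HasRainbowCycle c (a + b + 2) := by
  intro h
  obtain ⟨v, P⟩ := exists_per h
  obtain ⟨j, hj1, hj2, hj3⟩ := P.chord_color 0 (a + 1) (by omega) (by omega) h1
  obtain ⟨j', hj1', hj2', hj3'⟩ := P.chord_color ((a + 1 : ℕ) : ℤ) (b + 1) (by omega) (by omega) h2
  have e0 : v (((a + 1 : ℕ) : ℤ) + ((b + 1 : ℕ) : ℤ)) = v 0 := by
    rw [P.hv]
    exact ⟨1, by push_cast; ring⟩
  rw [e0, Sym2.eq_swap] at hj3'
  rw [zero_add] at hj3
  rw [hj3, P.he] at hj3'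
  have := eq_of_dvd_of_near hj3' (by push_cast at *; omega) (by push_cast at *; omega)
  push_cast at *
  omega

theorem miss_mul {N : ℕ} (hN : 1 ≤ N) (h : ¬ HasRainbowCycle c (N + 2)) :
    ∀ k, 1 ≤ k → ¬ HasRainbowCycle c (k * N + 2) := by
  intro k hk
  induction k, hk using Nat.le_induction with
  | base => simpa using h
  | succ k hk ih =>
    have := miss_add (Nat.mul_pos hk hN) hN ih h
    rw [Nat.succ_mul]
    exact this

end Pool.Agent.Helper72.Rainbow
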