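import Mathlib
import Pool.Agent.Helper72.RainbowChord

/-!
Long chords: every long chord of length `KN + 1` is coloured near its head, or every one is
coloured near its tail.
-/

namespace Pool.Agent.Helper72.Rainbow

open SimpleGraph

/-- The standing assumptions: a rainbow cycle of length `m`, no rainbow cycle of length
`k N + 2`, and `m = (K + 3) N + 2 - 2 q` with `N = q + s`. -/
structure Sys {V C : Type*} (c : Sym2 V → C) (v : ℤ → V) (m N K q s : ℕ) : Prop where
  per : Per c m v
  miss : ∀ k, 1 ≤ k → ¬ HasRainbowCycle c (k * N + 2)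
  hq : 1 ≤ q
  hs : 1 ≤ s
  hN : q + s = N
  hK : 2 ≤ K
  hm : m + 2 * q = K * N + 3 * N + 2

variable {V C : Type*} {c : Sym2 V → C} {v : ℤ → V} {m N K q s : ℕ}

/-- the long chord at `x` is coloured near its head -/
def IsR (c : Sym2 V → C) (v : ℤ → V) (N K q : ℕ) (x : ℤ) : Prop :=
  ∃ j : ℤ, x + (K * N + 1 : ℕ) - q ≤ j ∧ j < x + (K * N + 1 : ℕ) ∧
    c s(v x, v (x + (K * N + 1 : ℕ))) = c s(v j, v (j + 1))

/-- the long chord at `x` is coloured near its tail -/
def IsL (c : Sym2 V → C) (v : ℤ → V) (N K q : ℕ) (x : ℤ) : Prop :=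
  ∃ j : ℤ, x ≤ j ∧ j < x + q ∧
    c s(v x, v (x + (K * N + 1 : ℕ))) = c s(v j, v (j + 1))

theorem Sys.chord (S : Sys c v m N K q s) (k : ℕ) (hk : 1 ≤ k) (hkm : k * N + 1 < m) (x : ℤ) :
    ∃ j, x ≤ j ∧ j < x + (k * N + 1 : ℕ) ∧
      c s(v x, v (x + (k * N + 1 : ℕ))) = c s(v j, v (j + 1)) := by
  have h1 := S.hq
  have h2 := S.hN
  have h3 : 1 * 1 ≤ k * N := Nat.mul_le_mul hk (by omega)
  exact S.per.chord_color x (k * N + 1) hkm (by omega) (S.miss k hk)

theorem Sys.dichotomy (S : Sys c v m N K q s) (x : ℤ) :
    IsR c v N K q x ∨ IsL c v N K q (x - N) := by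
  have hq := S.hq
  have hs := S.hs
  have hN := S.hN
  have hm := S.hm
  have hK := S.hK
  have P := S.per
  have hKN : 2 * N ≤ K * N := Nat.mul_le_mul hK le_rfl
  -- abstract `K * N`
  obtain ⟨t, ht1, ht2, ht3⟩ := S.chord 2 (by norm_num) (by omega) (x + (K * N + 1 : ℕ) - q)
  have hmiss := S.miss 1 le_rfl
  unfold IsR IsL
  obtain ⟨u, hu1, hu2, hu3⟩ := S.chord K (by omega) (by omega) x
  obtain ⟨w, hw1, hw2, hw3⟩ := S.chord K (by omega) (by omega) (x - N)
  generalize hM : K * N = M at *
  by_cases h : x + (M + 1 : ℕ) - q + q ≤ t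
  · left
    refine ⟨u, ?_, hu2, hu3⟩
    by_contra hcon
    push Not at hcon
    apply hmiss
    have p0 := RPz.nil (c := c) (v := v) (x + m)
    have p1 := p0.bwd P s
      (by intro a' ha'; simp only [Set.mem_singleton_iff] at ha'; omega)
      (by intro b' hb'; simp at hb') (by omega)
    have p2 := p1.cons P (x + (M + 1 : ℕ) - q) t
      (by
        rintro a' (ha' | ha')
        · simp only [Set.mem_singleton_iff] at ha'; push_cast; omega
        · simp only [Set.mem_Ico] at ha'; push_cast; omega)
      (by
        rw [← ht3, show x + (m : ℤ) - s = x + (M + 1 : ℕ) - q + (2 * N + 1 : ℕ) by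
          push_cast; omega])
      (by
        rintro b' (hb' | hb')
        · simp at hb'
        · simp only [Set.mem_Ico] at hb'; push_cast at *; omega)
    have p3 := p2.fwd P q
      (by
        rintro a' (ha' | ha' | ha')
        · push_cast at *; omega
        · simp only [Set.mem_singleton_iff] at ha'; push_cast; omega
        · simp only [Set.mem_Ico] at ha'; push_cast at *; omega)
      (by
        rintro b' (hb' | hb' | hb')
        · push_cast at *; omega
        · simp at hb'
        · simp only [Set.mem_Ico] at hb'; push_cast at *; omega)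
      (by omega)
    have p4 := p3.close P (by omega) u
      (by
        rw [P.shift, ← hu3, sub_add_cancel])
      (by
        rintro b' ((hb' | hb' | hb') | hb')
        · push_cast at *; omega
        · simp at hb'
        · simp only [Set.mem_Ico] at hb'; push_cast at *; omega
        · simp only [Set.mem_Ico] at hb'; push_cast at *; omega)
    have e : 0 + s + 1 + q + 1 = 1 * N + 2 := by omega
    rw [e] at p4
    exact p4
  · right
    push Not at h
    refine ⟨w, hw1, ?_, hw3⟩
    by_contra hcon
    push Not at hcon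
    apply hmiss
    have p0 := P.arcs (x - N + (M + 1 : ℕ)) s (by omega)
    have p1 := p0.cons P (x + (M + 1 : ℕ) - q + (2 * N + 1 : ℕ)) t
      (by
        intro a' ha'
        simp only [Set.mem_Icc] at ha'; push_cast at *; omega)
      (by
        rw [Sym2.eq_swap, ← ht3, show x - (N : ℤ) + (M + 1 : ℕ) + s = x + (M + 1 : ℕ) - q by
          push_cast; omega])
      (by
        intro b' hb'
        simp only [Set.mem_Ico] at hb'; push_cast at *; omega)
    have p2 := p1.bwd P q
      (by
        rintro a' (ha' | ha')
        · push_cast at *; omega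
        · simp only [Set.mem_Icc] at ha'; push_cast at *; omega)
      (by
        rintro b' (hb' | hb')
        · push_cast at *; omega
        · simp only [Set.mem_Ico] at hb'; push_cast at *; omega)
      (by omega)
    have e1 : x + (M + 1 : ℕ) - q + (2 * N + 1 : ℕ) - q = x - N + m := by push_cast; omega
    have p3 := p2.close P (by omega) w
      (by
        rw [Sym2.eq_swap, e1, P.shift, hw3])
      (by
        rintro b' ((hb' | hb') | hb')
        · push_cast at *; omega
        · simp only [Set.mem_Ico] at hb'; push_cast at *; omega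
        · simp only [Set.mem_Ico] at hb'; push_cast at *; omega)
    have e : s + 1 + q + 1 = 1 * N + 2 := by omega
    rw [e] at p3
    exact p3

end Pool.Agent.Helper72.Rainbow
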