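import Mathlib
import Pool.Agent.Helper72.RainbowSpiral

/-!
If `m` and `N` are coprime, all long chords are coloured near their heads (after possibly
reversing the cycle), and then so are all chords of length `k N + 1`, `1 ≤ k ≤ K`.
-/

namespace Pool.Agent.Helper72.Rainbow

open SimpleGraph

variable {V C : Type*} {c : Sym2 V → C} {v : ℤ → V} {m N K q s : ℕ}

theorem Per.shift_mul (P : Per c m v) (i t : ℤ) : v (i + m * t) = v i :=
  (P.hv _ _).2 ⟨t, by ring⟩

theorem Per.isL_shift (P : Per c m v) (x t : ℤ) (h : IsL c v N K q (x + m * t)) :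
    IsL c v N K q x := by
  obtain ⟨j, h1, h2, h3⟩ := h
  refine ⟨j - m * t, by omega, by omega, ?_⟩
  have e1 : v (x + m * t) = v x := P.shift_mul x t
  have e2 : v (x + m * t + (K * N + 1 : ℕ)) = v (x + (K * N + 1 : ℕ)) := by
    rw [show x + m * t + (K * N + 1 : ℕ) = x + (K * N + 1 : ℕ) + m * t by ring]
    exact P.shift_mul _ t
  rw [e1, e2] at h3
  rw [h3, P.he]
  exact ⟨t, by ring⟩

theorem Sys.not_both (S : Sys c v m N K q s) (x : ℤ) (h1 : IsR c v N K q x)
    (h2 : IsL c v N K q x) : False := by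
  have hq := S.hq
  have hs := S.hs
  have hN := S.hN
  have hm := S.hm
  have hK := S.hK
  have hKN : 2 * N ≤ K * N := Nat.mul_le_mul hK le_rfl
  obtain ⟨j, a1, a2, a3⟩ := h1
  obtain ⟨j', b1, b2, b3⟩ := h2
  generalize hM : K * N = M at *
  rw [a3, S.per.he] at b3
  have := eq_of_dvd_of_near b3 (by push_cast at *; omega) (by push_cast at *; omega)
  push_cast at *
  omega

theorem Sys.allR_or_allL (S : Sys c v m N K q s) (hco : Nat.Coprime N m) :
    (∀ x, IsR c v N K q x) ∨ (∀ x, IsL c v N K q x) := by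
  by_cases hR : ∀ x, IsR c v N K q x
  · exact Or.inl hR
  · right
    push Not at hR
    obtain ⟨x0, hx0⟩ := hR
    have key : ∀ j : ℕ, IsL c v N K q (x0 - ((j : ℤ) + 1) * N) := by
      intro j
      induction j with
      | zero =>
        rcases S.dichotomy x0 with h | h
        · exact absurd h hx0
        · simpa using h
      | succ j ih =>
        rcases S.dichotomy (x0 - ((j : ℤ) + 1) * N) with h | h
        · exact absurd ih (fun h' => S.not_both _ h h')
        · rw [show x0 - (((j + 1 : ℕ) : ℤ) + 1) * N = x0 - ((j : ℤ) + 1) * N - N by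
            push_cast; ring]
          exact h
    intro x
    have hco' : IsCoprime (N : ℤ) (m : ℤ) := Nat.isCoprime_iff_coprime.2 hco
    obtain ⟨a, b, hab⟩ := hco'
    have hm3 := S.per.hm
    -- j = a (x0 - x) + m T - 1 with T large
    set j0 : ℤ := a * (x0 - x) with hj0
    obtain ⟨j, hj⟩ : ∃ j : ℕ, (j : ℤ) = j0 + m * (|j0| + 1) - 1 := by
      have h1 : 0 ≤ j0 + m * (|j0| + 1) - 1 := by
        have h2 := neg_abs_le j0
        have h3 := abs_nonneg j0
        have h4 : (3 : ℤ) * (|j0| + 1) ≤ m * (|j0| + 1) :=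
          mul_le_mul_of_nonneg_right (by exact_mod_cast hm3) (by omega)
        omega
      exact ⟨(j0 + m * (|j0| + 1) - 1).toNat, Int.toNat_of_nonneg h1⟩
    have h5 := key j
    apply S.per.isL_shift x (b * (x0 - x) - (|j0| + 1) * N)
    rw [hj] at h5
    convert h5 using 1
    have : (x0 - x) = (a * N + b * m) * (x0 - x) := by rw [hab]; ring
    rw [hj0]
    linear_combination -this

theorem Per.reflect (P : Per c m v) : Per c m (fun i => v (-i)) where
  hm := P.hm
  hv := by
    intro i j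
    rw [P.hv]
    rw [show -i - -j = -(i - j) by ring, dvd_neg]
  he := by
    intro i j
    have e : ∀ i : ℤ, c s(v (-i), v (-(i + 1))) = c s(v (-(i + 1)), v (-(i + 1) + 1)) := by
      intro i
      rw [Sym2.eq_swap, show -(i + 1) + 1 = -i by ring]
    rw [e, e, P.he]
    rw [show -(i + 1) - -(j + 1) = -(i - j) by ring, dvd_neg]

theorem Sys.reflect (S : Sys c v m N K q s) : Sys c (fun i => v (-i)) m N K q s where
  per := S.per.reflect
  miss := S.miss
  hq := S.hq
  hs := S.hs
  hN := S.hN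
  hK := S.hK
  hm := S.hm

theorem allL_reflect (h : ∀ x, IsL c v N K q x) : ∀ x, IsR c (fun i => v (-i)) N K q x := by
  intro x
  obtain ⟨j, h1, h2, h3⟩ := h (-x - (K * N + 1 : ℕ))
  refine ⟨-j - 1, by omega, by omega, ?_⟩
  show c s(v (-x), v (-(x + (K * N + 1 : ℕ)))) = c s(v (-(-j - 1)), v (-(-j - 1 + 1)))
  rw [show -(-j - 1) = j + 1 by ring, show -(-j - 1 + 1) = j by ring, Sym2.eq_swap,
    show -(x + ((K * N + 1 : ℕ) : ℤ)) = -x - (K * N + 1 : ℕ) by ring]
  rw [show -x - ((K * N + 1 : ℕ) : ℤ) + (K * N + 1 : ℕ) = -x by ring] at h3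
  rw [h3, Sym2.eq_swap]

/-- the head colouring function -/
structure Psi (c : Sym2 V → C) (v : ℤ → V) (N K q : ℕ) (f : ℤ → ℤ) : Prop where
  lo : ∀ y, y - q ≤ f y
  hi : ∀ y, f y < y
  col : ∀ y, ∀ k : ℕ, 1 ≤ k → k ≤ K →
    c s(v (y - (k * N + 1 : ℕ)), v y) = c s(v (f y), v (f y + 1))

theorem Sys.exists_psi (S : Sys c v m N K q s) (h : ∀ x, IsR c v N K q x) :
    ∃ f, Psi c v N K q f := by
  have hq := S.hq
  have hs := S.hs
  have hN := S.hN
  have hm := S.hm
  have hK := S.hK
  have P := S.per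
  have h' : ∀ y, ∃ j : ℤ, y - q ≤ j ∧ j < y ∧
      c s(v (y - (K * N + 1 : ℕ)), v y) = c s(v j, v (j + 1)) := by
    intro y
    obtain ⟨j, h1, h2, h3⟩ := h (y - (K * N + 1 : ℕ))
    refine ⟨j, by omega, by omega, ?_⟩
    rw [← h3, sub_add_cancel]
  choose f hf1 hf2 hf3 using h'
  refine ⟨f, hf1, hf2, ?_⟩
  intro y k hk1 hk2
  rcases Nat.eq_or_lt_of_le hk2 with rfl | hlt
  · exact hf3 y
  obtain ⟨d, rfl⟩ : ∃ d, K = k + d := ⟨K - k, by omega⟩
  have hd : 1 ≤ d := by omega
  have hmiss := S.miss d hd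
  have e1 : (k + d) * N = k * N + d * N := by ring
  have hkN : 1 * N ≤ k * N := Nat.mul_le_mul hk1 le_rfl
  have hdN : 1 * N ≤ d * N := Nat.mul_le_mul hd le_rfl
  have F := hf3 y
  have f1 := hf1 y
  have f2 := hf2 y
  obtain ⟨t, ht1, ht2, ht3⟩ := S.chord k hk1 (by omega) (y - (k * N + 1 : ℕ))
  rw [sub_add_cancel] at ht3
  rw [e1] at F hm
  generalize hM : k * N = M at *
  generalize hD : d * N = D at *
  by_contra hcon
  have hne : t ≠ f y := by
    intro h0
    rw [h0] at ht3
    exact hcon ht3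
  apply hmiss
  have p0 := P.arcs (y - (M + D + 1 : ℕ)) D (by omega)
  have p1 := p0.cons P y t
    (by
      intro a' ha'
      simp only [Set.mem_Icc] at ha'; push_cast at *; omega)
    (by
      rw [Sym2.eq_swap, ← ht3, show y - ((M + D + 1 : ℕ) : ℤ) + D = y - (M + 1 : ℕ) by
        push_cast; ring])
    (by
      intro b' hb'
      simp only [Set.mem_Ico] at hb'; push_cast at *; omega)
  have p2 := p1.close P (by omega) (f y) F
    (by
      rintro b' (hb' | hb')
      · push_cast at *; omega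
      · simp only [Set.mem_Ico] at hb'; push_cast at *; omega)
  have e : D + 1 + 1 = D + 2 := by omega
  rw [e] at p2
  exact p2

end Pool.Agent.Helper72.Rainbow
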