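import Mathlib
import Pool.Agent.Helper72.RainbowPsi

/-!
Gadgets: a vertex `y` whose incoming chords are coloured at least `g + 1` steps before `y` allows
to gain `2 g` steps modulo `N`.
-/

namespace Pool.Agent.Helper72.Rainbow

open SimpleGraph

variable {V C : Type*} {c : Sym2 V → C} {v : ℤ → V} {m N K q s : ℕ} {f : ℤ → ℤ}

theorem Sys.step_arcs (S : Sys c v m N K q s) {a : ℤ} {l : ℕ} (ha : 0 ≤ a)
    (h : RPz c v 0 a l (Set.Icc 0 a) (Set.Ico 0 a)) (t : ℕ) (ht : a + t < m) :
    RPz c v 0 (a + t) (l + t) (Set.Icc 0 (a + t)) (Set.Ico 0 (a + t)) := by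
  have := h.fwd S.per t
    (by intro a' ha'; simp only [Set.mem_Icc] at ha'; omega)
    (by intro b' hb'; simp only [Set.mem_Ico] at hb'; omega) (by omega)
  refine this.mono ?_ ?_
  · rintro x (hx | hx)
    · simp only [Set.mem_Icc] at hx ⊢; omega
    · simp only [Set.mem_Ioc] at hx; simp only [Set.mem_Icc]; omega
  · rintro x (hx | hx)
    · simp only [Set.mem_Ico] at hx ⊢; omega
    · simp only [Set.mem_Ico] at hx ⊢; omega

theorem Sys.step_gadget (S : Sys c v m N K q s) (F : Psi c v N K q f) {a : ℤ} {l : ℕ}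
    (ha : 0 ≤ a) (h : RPz c v 0 a l (Set.Icc 0 a) (Set.Ico 0 a)) (y : ℤ) (g : ℕ) (hg : 1 ≤ g)
    (hy : a + N + 1 ≤ y) (hfy : f y ≤ y - 1 - g) (hz : y - g + 2 * N + 1 < m) :
    RPz c v 0 (y - g + 2 * N + 1) (l + (y - N - 1 - a).toNat + g + 2)
      (Set.Icc 0 (y - g + 2 * N + 1)) (Set.Ico 0 (y - g + 2 * N + 1)) := by
  have hq := S.hq
  have hs := S.hs
  have hN := S.hN
  have hK := S.hK
  have P := S.per
  have f1 := F.lo y
  have f2 := F.lo (y - g + 2 * N + 1)
  have f3 := F.hi (y - g + 2 * N + 1)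
  have c1 := F.col y 1 le_rfl (by omega)
  have c2 := F.col (y - g + 2 * N + 1) 2 (by norm_num) (by omega)
  have p1 := S.step_arcs ha h (y - N - 1 - a).toNat (by omega)
  have e1 : a + ((y - N - 1 - a).toNat : ℤ) = y - N - 1 := by omega
  rw [e1] at p1
  have p2 := p1.cons P y (f y)
    (by intro a' ha'; simp only [Set.mem_Icc] at ha'; omega)
    (by
      rw [Sym2.eq_swap, ← c1, show y - (N : ℤ) - 1 = y - (1 * N + 1 : ℕ) by push_cast; ring])
    (by intro b' hb'; simp only [Set.mem_Ico] at hb'; omega)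
  have p3 := p2.bwd P g
    (by
      rintro a' (ha' | ha')
      · omega
      · simp only [Set.mem_Icc] at ha'; omega)
    (by
      rintro b' (hb' | hb')
      · omega
      · simp only [Set.mem_Ico] at hb'; omega)
    (by omega)
  have p4 := p3.cons P (y - g + 2 * N + 1) (f (y - g + 2 * N + 1))
    (by
      rintro a' ((ha' | ha') | ha')
      · omega
      · simp only [Set.mem_Icc] at ha'; omega
      · simp only [Set.mem_Ico] at ha'; omega)
    (by
      rw [Sym2.eq_swap, ← c2, show y - (g : ℤ) + 2 * N + 1 - (2 * N + 1 : ℕ) = y - g by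
        push_cast; ring])
    (by
      rintro b' ((hb' | hb') | hb')
      · omega
      · simp only [Set.mem_Ico] at hb'; omega
      · simp only [Set.mem_Ico] at hb'; omega)
  have e2 : l + (y - N - 1 - a).toNat + 1 + g + 1 = l + (y - N - 1 - a).toNat + g + 2 := by omega
  rw [e2] at p4
  refine p4.mono ?_ ?_
  · rintro x (hx | (hx | hx) | hx)
    · simp only [Set.mem_Icc]; omega
    · simp only [Set.mem_Icc]; omega
    · simp only [Set.mem_Icc] at hx ⊢; omega
    · simp only [Set.mem_Ico] at hx; simp only [Set.mem_Icc]; omega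
  · rintro x (hx | (hx | hx) | hx)
    · simp only [Set.mem_Ico]; omega
    · simp only [Set.mem_Ico]; omega
    · simp only [Set.mem_Ico] at hx ⊢; omega
    · simp only [Set.mem_Ico] at hx ⊢; omega

/-- one superblock of `5 N` vertices traversed by arcs -/
theorem Sys.block_arcs (S : Sys c v m N K q s) {a : ℤ} {l : ℕ} (ha : 0 ≤ a)
    (h : RPz c v 0 a l (Set.Icc 0 a) (Set.Ico 0 a)) (hm : a + 5 * N < m) :
    RPz c v 0 (a + 5 * N) (l + 5 * N) (Set.Icc 0 (a + 5 * N)) (Set.Ico 0 (a + 5 * N)) := by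
  have := S.step_arcs ha h (5 * N) (by push_cast; omega)
  simpa using this

/-- one superblock of `5 N` vertices traversed with a gadget -/
theorem Sys.block_gadget (S : Sys c v m N K q s) (F : Psi c v N K q f) {a : ℤ} {l : ℕ}
    (ha : 0 ≤ a) (h : RPz c v 0 a l (Set.Icc 0 a) (Set.Ico 0 a)) (hm : a + 5 * N < m)
    (y : ℤ) (hy1 : a + 2 * N ≤ y) (hy2 : y < a + 3 * N) (g : ℕ) (hg : 1 ≤ g)
    (hfy : f y ≤ y - 1 - g) :
    RPz c v 0 (a + 5 * N) (l + 2 * N + 2 * g) (Set.Icc 0 (a + 5 * N)) (Set.Ico 0 (a + 5 * N)) := by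
  have hq := S.hq
  have hs := S.hs
  have hN := S.hN
  have p1 := S.step_gadget F ha h y g hg (by omega) hfy (by omega)
  have p2 := S.step_arcs (a := y - g + 2 * N + 1) (by have := F.lo y; omega) p1
    (a + 5 * N - (y - g + 2 * N + 1)).toNat (by omega)
  have e1 : y - g + 2 * N + 1 + ((a + 5 * N - (y - g + 2 * N + 1)).toNat : ℤ) = a + 5 * N := by
    omega
  have e2 : l + (y - N - 1 - a).toNat + g + 2 + (a + 5 * N - (y - g + 2 * N + 1)).toNat =
      l + 2 * N + 2 * g := by omega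
  rw [e1, e2] at p2
  exact p2

end Pool.Agent.Helper72.Rainbow
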