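import Mathlib
import Pool.Agent.Helper72.RainbowGadget

/-!
There are few bad superblocks.
-/

namespace Pool.Agent.Helper72.Rainbow

open SimpleGraph

variable {V C : Type*} {c : Sym2 V → C} {v : ℤ → V} {m N K q s : ℕ} {f : ℤ → ℤ}

/-- superblock `i` contains (in its third block) a vertex whose incoming chords are coloured at
least `θ + 1` steps before it -/
def Bad (f : ℤ → ℤ) (N θ : ℕ) (i : ℕ) : Prop :=
  ∃ y : ℤ, ((5 * (i * N) + 2 * N : ℕ) : ℤ) ≤ y ∧ y < ((5 * (i * N) + 3 * N : ℕ) : ℤ) ∧
    f y ≤ y - 1 - θ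

open Classical in
/-- the gain obtained by greedily using bad superblocks -/
noncomputable def gain (f : ℤ → ℤ) (N θ q : ℕ) : ℕ → ℕ
  | 0 => 0
  | i + 1 => if Bad f N θ i then min q (gain f N θ q i + θ) else gain f N θ q i

theorem gain_le (f : ℤ → ℤ) (N θ q i : ℕ) : gain f N θ q i ≤ q := by
  induction i with
  | zero => simp [gain]
  | succ i ih =>
    rw [gain]
    split_ifs
    · exact min_le_left _ _
    · exact ih

open Classical in
theorem gain_eq (f : ℤ → ℤ) (N θ q i : ℕ) (h : gain f N θ q i < q) :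
    gain f N θ q i = θ * ((Finset.range i).filter (fun j => Bad f N θ j)).card := by
  induction i with
  | zero => simp [gain]
  | succ i ih =>
    rw [gain] at h ⊢
    rw [Finset.range_add_one, Finset.filter_insert]
    split_ifs at h ⊢ with hb
    · have h1 : gain f N θ q i + θ < q := by
        rcases lt_or_ge (gain f N θ q i + θ) q with h2 | h2
        · exact h2
        · rw [min_eq_left h2] at h; exact absurd h (lt_irrefl _)
      rw [min_eq_right h1.le, Finset.card_insert_of_notMem (by simp), ih (by omega)]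
      ring
    · exact ih h

theorem Sys.state (S : Sys c v m N K q s) (F : Psi c v N K q f) {θ : ℕ} (hθ : 1 ≤ θ) (i : ℕ)
    (hi : 5 * (i * N) < m) :
    ∃ l : ℕ, RPz c v 0 ((5 * (i * N) : ℕ) : ℤ) l (Set.Icc 0 ((5 * (i * N) : ℕ) : ℤ))
      (Set.Ico 0 ((5 * (i * N) : ℕ) : ℤ)) ∧ (N : ℤ) ∣ (l : ℤ) - 2 * gain f N θ q i := by
  induction i with
  | zero =>
    refine ⟨0, ?_, ?_⟩
    · have := RPz.nil (c := c) (v := v) 0
      simp only [Nat.zero_mul, Nat.mul_zero, Nat.cast_zero]
      refine this.mono ?_ ?_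
      · intro x hx; simp only [Set.mem_singleton_iff] at hx; simp [hx]
      · exact Set.empty_subset _
    · simp [gain]
  | succ i ih =>
    have e0 : (i + 1) * N = i * N + N := by ring
    rw [e0] at hi ⊢
    obtain ⟨l, h1, h2⟩ := ih (by omega)
    have hle := gain_le f N θ q i
    have ha : (0 : ℤ) ≤ ((5 * (i * N) : ℕ) : ℤ) := by positivity
    have e1 : ((5 * (i * N + N) : ℕ) : ℤ) = ((5 * (i * N) : ℕ) : ℤ) + 5 * N := by push_cast; ring
    have hm : ((5 * (i * N) : ℕ) : ℤ) + 5 * N < m := by push_cast; omega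
    rw [e1]
    by_cases hb : Bad f N θ i ∧ gain f N θ q i < q
    · obtain ⟨⟨y, hy1, hy2, hy3⟩, hg⟩ := hb
      have hbad : Bad f N θ i := ⟨y, hy1, hy2, hy3⟩
      obtain ⟨g, hg1⟩ : ∃ g, g + gain f N θ q i = min q (gain f N θ q i + θ) :=
        ⟨min q (gain f N θ q i + θ) - gain f N θ q i, by
          apply Nat.sub_add_cancel; rw [le_min_iff]; omega⟩
      have hg2 : 1 ≤ g := by
        have : gain f N θ q i < min q (gain f N θ q i + θ) := by rw [lt_min_iff]; omega
        omega
      have hg3 : g ≤ θ := by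
        have : min q (gain f N θ q i + θ) ≤ gain f N θ q i + θ := min_le_right _ _
        omega
      have p := S.block_gadget F ha h1 hm y (by push_cast at *; omega) (by push_cast at *; omega)
        g hg2 (by omega)
      refine ⟨_, p, ?_⟩
      rw [gain, if_pos hbad, ← hg1]
      obtain ⟨t, ht⟩ := h2
      refine ⟨t + 2, ?_⟩
      push_cast
      linear_combination ht
    · have hgain : gain f N θ q (i + 1) = gain f N θ q i := by
        rw [gain]
        split_ifs with hb'
        · have : ¬ gain f N θ q i < q := fun h => hb ⟨hb', h⟩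
          rw [min_eq_left (by omega)]
          omega
        · rfl
      have p := S.block_arcs ha h1 hm
      refine ⟨_, p, ?_⟩
      rw [hgain]
      obtain ⟨t, ht⟩ := h2
      refine ⟨t + 5, ?_⟩
      push_cast
      linear_combination ht

/-- a rainbow cycle whose length is `2` modulo `N` is impossible -/
theorem Sys.no_cycle (S : Sys c v m N K q s) {L : ℕ} (hL : 3 ≤ L) (hd : (N : ℤ) ∣ (L : ℤ) - 2) :
    ¬ HasRainbowCycle c L := by
  have hq := S.hq
  have hN := S.hN
  obtain ⟨t, ht⟩ := hd
  have hNpos : (0 : ℤ) < N := by omega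
  have htpos : 0 < t := by
    by_contra h
    push Not at h
    have : (N : ℤ) * t ≤ 0 := mul_nonpos_of_nonneg_of_nonpos hNpos.le h
    omega
  obtain ⟨k, rfl⟩ : ∃ k : ℕ, t = k := ⟨t.toNat, by omega⟩
  have e : L = k * N + 2 := by
    have : (L : ℤ) = (k * N + 2 : ℕ) := by push_cast; linear_combination ht
    exact_mod_cast this
  rw [e]
  exact S.miss k (by omega)

theorem Sys.gain_lt (S : Sys c v m N K q s) (F : Psi c v N K q f) {θ : ℕ} (hθ : 1 ≤ θ) (i : ℕ)
    (hi : 5 * (i * N) + 3 ≤ m) : gain f N θ q i < q := by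
  by_contra hcon
  have hle := gain_le f N θ q i
  have hq : gain f N θ q i = q := by omega
  obtain ⟨l, h1, h2⟩ := S.state F hθ i (by omega)
  rw [hq] at h2
  have hm := S.hm
  have P := S.per
  have p1 := S.step_arcs (by positivity) h1 (m - 1 - 5 * (i * N)) (by omega)
  have e1 : ((5 * (i * N) : ℕ) : ℤ) + ((m - 1 - 5 * (i * N) : ℕ) : ℤ) = m - 1 := by
    push_cast; omega
  rw [e1] at p1
  have p2 := p1.close P (by omega) (m - 1)
    (by
      have := P.shift 0
      rw [zero_add] at this
      rw [sub_add_cancel, this, Sym2.eq_swap])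
    (by intro b' hb'; simp only [Set.mem_Ico] at hb'; omega)
  refine S.no_cycle (by omega) ?_ p2
  obtain ⟨t, ht⟩ := h2
  have hsub : ((m - 1 - 5 * (i * N) : ℕ) : ℤ) = m - 1 - 5 * (i * N) := by push_cast; omega
  refine ⟨t + K + 3 - 5 * i, ?_⟩
  push_cast
  rw [hsub]
  have hm' : (m : ℤ) + 2 * q = K * N + 3 * N + 2 := by exact_mod_cast hm
  linear_combination ht + hm'

open Classical in
/-- few superblocks are bad -/
theorem Sys.few_bad (S : Sys c v m N K q s) (F : Psi c v N K q f) {θ : ℕ} (hθ : 1 ≤ θ)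
    (hθ2 : q ≤ θ * θ) (i : ℕ) (hi : 5 * (i * N) + 3 ≤ m) :
    ((Finset.range i).filter (fun j => Bad f N θ j)).card < θ := by
  have h1 := S.gain_lt F hθ i hi
  rw [gain_eq f N θ q i h1] at h1
  by_contra hcon
  push Not at hcon
  have : θ * θ ≤ θ * ((Finset.range i).filter (fun j => Bad f N θ j)).card :=
    Nat.mul_le_mul le_rfl hcon
  omega

end Pool.Agent.Helper72.Rainbow
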