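import Mathlib

/-!
A self-avoiding sequence of residues with increments `α` or `α + 1`.
-/

namespace Pool.Agent.Helper72.Rainbow

/-- the sequence `o i = α i + ⌊i / N'⌋` modulo `N`, where `N' = N / gcd (α, N)` -/
def oseq (α N i : ℕ) : ℕ := (α * i + i / (N / Nat.gcd α N)) % N

theorem oseq_lt {α N : ℕ} (hN : 0 < N) (i : ℕ) : oseq α N i < N := Nat.mod_lt _ hN

theorem oseq_zero (α N : ℕ) : oseq α N 0 = 0 := by simp [oseq]

theorem oseq_inj {α N : ℕ} (hN : 0 < N) {i j : ℕ} (hij : i < j) (hj : j < N) :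
    oseq α N i ≠ oseq α N j := by
  intro h
  set e := Nat.gcd α N with he
  have hepos : 0 < e := Nat.gcd_pos_of_pos_right _ hN
  have hdvd : e ∣ N := Nat.gcd_dvd_right _ _
  have hdvd' : e ∣ α := Nat.gcd_dvd_left _ _
  set N' := N / e with hN'
  have hNe : N' * e = N := Nat.div_mul_cancel hdvd
  have hN'pos : 0 < N' := by
    rcases Nat.eq_zero_or_pos N' with h0 | h0
    · rw [h0, zero_mul] at hNe; omega
    · exact h0
  have h1 : α * i + i / N' ≡ α * j + j / N' [MOD N] := h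
  have h2 : i / N' ≡ j / N' [MOD e] := by
    have h3 : α * i + i / N' ≡ α * j + j / N' [MOD e] := h1.of_dvd hdvd
    have h4 : α * i ≡ 0 [MOD e] := (Nat.modEq_zero_iff_dvd).2 (hdvd'.mul_right i)
    have h5 : α * j ≡ 0 [MOD e] := (Nat.modEq_zero_iff_dvd).2 (hdvd'.mul_right j)
    exact Nat.ModEq.add_left_cancel (h4.trans h5.symm) h3
  have h6 : i / N' < e := by
    rw [Nat.div_lt_iff_lt_mul hN'pos, mul_comm, hNe]; omega
  have h7 : j / N' < e := by
    rw [Nat.div_lt_iff_lt_mul hN'pos, mul_comm, hNe]; omega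
  have h8 : i / N' = j / N' := Nat.ModEq.eq_of_lt_of_lt h2 h6 h7
  rw [h8] at h1
  have h9 : α * i ≡ α * j [MOD N] := Nat.ModEq.add_right_cancel' _ h1
  have h10 : N ∣ α * j - α * i := (Nat.modEq_iff_dvd' (Nat.mul_le_mul_left _ hij.le)).1 h9
  rw [← Nat.mul_sub] at h10
  have h11 : N' ∣ j - i := by
    have h12 : N / e ∣ α / e * (j - i) := by
      obtain ⟨t, ht⟩ := h10
      obtain ⟨a', ha'⟩ := hdvd'
      refine ⟨t, ?_⟩
      have : e * (α / e * (j - i)) = e * (N / e * t) := by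
        rw [← mul_assoc, Nat.mul_div_cancel' (Nat.gcd_dvd_left _ _), ht, ← mul_assoc,
          Nat.mul_div_cancel' hdvd]
      exact Nat.eq_of_mul_eq_mul_left hepos this
    have h13 : Nat.Coprime (N / e) (α / e) := by
      have := Nat.coprime_div_gcd_div_gcd (m := α) (n := N) hepos
      exact this.symm
    exact h13.dvd_of_dvd_mul_left h12
  have h14 : N' ≤ j - i := Nat.le_of_dvd (by omega) h11
  have h15 : i / N' + 1 ≤ j / N' := by
    rw [← Nat.add_div_right _ hN'pos]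
    exact Nat.div_le_div_right (by omega)
  omega

theorem oseq_succ (α N i : ℕ) :
    oseq α N (i + 1) ≡ oseq α N i + α + (if (N / Nat.gcd α N) ∣ i + 1 then 1 else 0) [MOD N] := by
  have h1 : oseq α N (i + 1) ≡ α * (i + 1) + (i + 1) / (N / Nat.gcd α N) [MOD N] :=
    Nat.mod_modEq _ _
  have h2 : oseq α N i ≡ α * i + i / (N / Nat.gcd α N) [MOD N] := Nat.mod_modEq _ _
  rw [Nat.succ_div] at h1
  have h3 : oseq α N i + α + (if (N / Nat.gcd α N) ∣ i + 1 then 1 else 0) ≡
      α * i + i / (N / Nat.gcd α N) + α + (if (N / Nat.gcd α N) ∣ i + 1 then 1 else 0) [MOD N] :=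
    Nat.ModEq.add_right _ (Nat.ModEq.add_right _ h2)
  refine h1.trans (Nat.ModEq.trans ?_ h3.symm)
  exact congrArg (· % N) (by ring)

end Pool.Agent.Helper72.Rainbow
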