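import Mathlib
import Pool.Agent.Helper72.RainbowBad
import Pool.Agent.Helper72.RainbowSeq

/-!
The long walk through good superblocks.
-/

namespace Pool.Agent.Helper72.Rainbow

open SimpleGraph

variable {V C : Type*} {c : Sym2 V → C} {v : ℤ → V} {m N K q s : ℕ} {f : ℤ → ℤ}

theorem Sys.psi_shift (S : Sys c v m N K q s) (F : Psi c v N K q f) (y : ℤ) :
    c s(v (f (y + m)), v (f (y + m) + 1)) = c s(v (f y), v (f y + 1)) := by
  have hK := S.hK
  rw [← F.col (y + m) 1 le_rfl (by omega), ← F.col y 1 le_rfl (by omega), S.per.shift,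
    show y + (m : ℤ) - (1 * N + 1 : ℕ) = y - (1 * N + 1 : ℕ) + m by ring, S.per.shift]

theorem Sys.tstep (S : Sys c v m N K q s) (F : Psi c v N K q f) {x y : ℤ}
    (h : (N : ℤ) ∣ y - x - 1) (h1 : x + N + 1 ≤ y) (h2 : y ≤ x + (K * N : ℕ) + 1) :
    c s(v y, v x) = c s(v (f y), v (f y + 1)) := by
  have hq := S.hq
  have hN := S.hN
  obtain ⟨t, ht⟩ := h
  have hNpos : (0 : ℤ) < N := by omega
  have ht1 : 1 ≤ t := by
    by_contra h
    push Not at h
    have : (N : ℤ) * t ≤ 0 := mul_nonpos_of_nonneg_of_nonpos hNpos.le (by omega)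
    omega
  have ht2 : t ≤ K := by
    by_contra h
    push Not at h
    have : (N : ℤ) * (K + 1) ≤ N * t := mul_le_mul_of_nonneg_left (by omega) hNpos.le
    push_cast at h2
    nlinarith
  obtain ⟨k, rfl⟩ : ∃ k : ℕ, t = k := ⟨t.toNat, by omega⟩
  rw [← F.col y k (by omega) (by omega), Sym2.eq_swap,
    show y - ((k * N + 1 : ℕ) : ℤ) = x by push_cast; linear_combination ht]

theorem Sys.tstep_cross (S : Sys c v m N K q s) (F : Psi c v N K q f) {x y : ℤ}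
    (h : (N : ℤ) ∣ y + m - x - 1) (h1 : x + N + 1 ≤ y + m) (h2 : y + m ≤ x + (K * N : ℕ) + 1) :
    c s(v y, v x) = c s(v (f y), v (f y + 1)) := by
  have := S.tstep F h h1 h2
  rw [S.psi_shift F, S.per.shift] at this
  exact this

/-- an increasing enumeration of good superblocks -/
structure Enum (f : ℤ → ℤ) (N θ : ℕ) (β : ℕ → ℕ) : Prop where
  mono : ∀ r r', r < r' → r' < 3 * θ → β r < β r'
  lt : ∀ r, r < 3 * θ → β r < 4 * θ
  good : ∀ r, r < 3 * θ → ¬ Bad f N θ (β r)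

/-- the position with residue `x.2` in group `x.1` -/
def pos (β : ℕ → ℕ) (N θ : ℕ) (x : ℕ × ℕ) : ℤ :=
  ((5 * (β (x.1 * θ + x.2 % θ) * N) + 2 * N + x.2 : ℕ) : ℤ)

/-- valid labels -/
def Valid (N : ℕ) (x : ℕ × ℕ) : Prop := x.1 < 3 ∧ x.2 < N

variable {β : ℕ → ℕ} {θ : ℕ}

theorem idx_lt (hθ : 1 ≤ θ) {x : ℕ × ℕ} (hx : Valid N x) : x.1 * θ + x.2 % θ < 3 * θ := by
  have h1 := Nat.mod_lt x.2 (by omega : θ > 0)
  have h2 := hx.1
  have h3 : x.1 * θ ≤ 2 * θ := Nat.mul_le_mul_right _ (by omega)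
  omega

theorem idx_eq (hθ : 1 ≤ θ) {x y : ℕ × ℕ} (h : x.1 * θ + x.2 % θ = y.1 * θ + y.2 % θ) :
    x.1 = y.1 ∧ x.2 % θ = y.2 % θ := by
  have h1 := Nat.mod_lt x.2 (by omega : θ > 0)
  have h2 := Nat.mod_lt y.2 (by omega : θ > 0)
  have h3 : (x.2 % θ + θ * x.1) / θ = (y.2 % θ + θ * y.1) / θ := by
    congr 1
    rw [add_comm, mul_comm, h, add_comm, mul_comm]
  rw [Nat.add_mul_div_left _ _ (by omega : 0 < θ), Nat.add_mul_div_left _ _ (by omega : 0 < θ),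
    Nat.div_eq_of_lt h1, Nat.div_eq_of_lt h2] at h3
  have h4 : x.1 = y.1 := by omega
  rw [h4] at h
  exact ⟨h4, by omega⟩

theorem Enum.f_ge (E : Enum f N θ β) (hθ : 1 ≤ θ) {x : ℕ × ℕ} (hx : Valid N x) :
    pos β N θ x - θ ≤ f (pos β N θ x) := by
  have h := E.good _ (idx_lt hθ hx)
  by_contra hcon
  push Not at hcon
  apply h
  refine ⟨pos β N θ x, ?_, ?_, by omega⟩
  · unfold pos; push_cast; omega
  · have := hx.2
    unfold pos; push_cast; omega


theorem pos_lo (x : ℕ × ℕ) : 2 * (N : ℤ) ≤ pos β N θ x := by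
  unfold pos; push_cast
  have : (0 : ℤ) ≤ (β (x.1 * θ + x.2 % θ) : ℤ) * N := by positivity
  omega

theorem Enum.pos_hi (E : Enum f N θ β) (hθ : 1 ≤ θ) {x : ℕ × ℕ} (hx : Valid N x) :
    pos β N θ x + 2 * N < ((20 * (θ * N) : ℕ) : ℤ) := by
  have h := E.lt _ (idx_lt hθ hx)
  have h1 : (β (x.1 * θ + x.2 % θ) + 1) * N ≤ 4 * θ * N := Nat.mul_le_mul_right _ h
  have h2 := hx.2
  have h3 : 4 * θ * N = 4 * (θ * N) := by ring
  have h4 : (β (x.1 * θ + x.2 % θ) + 1) * N = β (x.1 * θ + x.2 % θ) * N + N := by ring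
  unfold pos; push_cast
  rw [h3, h4] at h1
  zify at h1
  omega

/-- if the index of `x` is smaller, then `x` is far to the left -/
theorem Enum.pos_lt (E : Enum f N θ β) (hθ : 1 ≤ θ) {x y : ℕ × ℕ} (hx : Valid N x)
    (hy : Valid N y) (h : x.1 * θ + x.2 % θ < y.1 * θ + y.2 % θ) :
    pos β N θ x + 4 * N + 1 ≤ pos β N θ y := by
  have h0 := E.mono _ _ h (idx_lt hθ hy)
  have h1 : (β (x.1 * θ + x.2 % θ) + 1) * N ≤ β (y.1 * θ + y.2 % θ) * N :=
    Nat.mul_le_mul_right _ h0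
  have h4 : (β (x.1 * θ + x.2 % θ) + 1) * N = β (x.1 * θ + x.2 % θ) * N + N := by ring
  rw [h4] at h1
  have h2 := hx.2
  unfold pos; push_cast
  zify at h1
  omega

theorem Enum.sep (E : Enum f N θ β) (F : Psi c v N K q f) (hqN : q ≤ N) (hθ : 1 ≤ θ)
    {x y : ℕ × ℕ} (hx : Valid N x) (hy : Valid N y) (hne : x ≠ y) :
    (f (pos β N θ x) < f (pos β N θ y) ∧ pos β N θ x < pos β N θ y) ∨
    (f (pos β N θ y) < f (pos β N θ x) ∧ pos β N θ y < pos β N θ x) := by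
  have hx1 := F.lo (pos β N θ x)
  have hx2 := F.hi (pos β N θ x)
  have hy1 := F.lo (pos β N θ y)
  have hy2 := F.hi (pos β N θ y)
  have hx3 := E.f_ge hθ hx
  have hy3 := E.f_ge hθ hy
  rcases lt_trichotomy (x.1 * θ + x.2 % θ) (y.1 * θ + y.2 % θ) with h | h | h
  · left
    have := E.pos_lt hθ hx hy h
    omega
  · obtain ⟨h1, h2⟩ := idx_eq hθ h
    have hne2 : x.2 ≠ y.2 := fun h3 => hne (Prod.ext h1 h3)
    have e : pos β N θ y - pos β N θ x = (y.2 : ℤ) - x.2 := by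
      unfold pos; rw [h]; push_cast; ring
    rcases lt_or_gt_of_ne hne2 with h3 | h3
    · left
      have h4 : θ ∣ y.2 - x.2 := (Nat.modEq_iff_dvd' h3.le).1 h2
      have h5 := Nat.le_of_dvd (by omega) h4
      omega
    · right
      have h4 : θ ∣ x.2 - y.2 := (Nat.modEq_iff_dvd' h3.le).1 h2.symm
      have h5 := Nat.le_of_dvd (by omega) h4
      omega
  · right
    have := E.pos_lt hθ hy hx h
    omega

/-- a rainbow path through labelled positions -/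
def PathL (c : Sym2 V → C) (v : ℤ → V) (f : ℤ → ℤ) (β : ℕ → ℕ) (N θ : ℕ) (b x : ℕ × ℕ) (l : ℕ)
    (W : Set (ℕ × ℕ)) : Prop :=
  RPz c v (pos β N θ b) (pos β N θ x) l (pos β N θ '' W)
    ((fun y => f (pos β N θ y)) '' (W \ {b}))

theorem PathL.mono {b x : ℕ × ℕ} {l : ℕ} {W W' : Set (ℕ × ℕ)}
    (h : PathL c v f β N θ b x l W) (hW : W ⊆ W') : PathL c v f β N θ b x l W' :=
  RPz.mono h (Set.image_mono hW) (Set.image_mono (Set.sdiff_subset_sdiff_left hW))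

theorem Sys.append (S : Sys c v m N K q s) (F : Psi c v N K q f) (E : Enum f N θ β)
    (hθ : 1 ≤ θ) (hm : 20 * (θ * N) ≤ m) {b x y : ℕ × ℕ} {l : ℕ} {W : Set (ℕ × ℕ)}
    (h : PathL c v f β N θ b x l W) (hW : ∀ z ∈ W, Valid N z) (hy : Valid N y) (hyW : y ∉ W)
    (hb : b ∈ W)
    (hcol : c s(v (pos β N θ y), v (pos β N θ x)) =
      c s(v (f (pos β N θ y)), v (f (pos β N θ y) + 1))) :
    PathL c v f β N θ b y (l + 1) (insert y W) := by
  have hqN : q ≤ N := by have := S.hN; omega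
  have hy1 := pos_lo (β := β) (N := N) (θ := θ) y
  have hy2 := E.pos_hi hθ hy
  have hy3 := F.lo (pos β N θ y)
  have hy4 := F.hi (pos β N θ y)
  have p := RPz.cons S.per h (pos β N θ y) (f (pos β N θ y))
    (by
      rintro a' ⟨z, hz, rfl⟩
      have hzy : z ≠ y := fun h0 => hyW (h0 ▸ hz)
      have h1 := pos_lo (β := β) (N := N) (θ := θ) z
      have h2 := E.pos_hi hθ (hW z hz)
      have h3 := E.sep F hqN hθ (hW z hz) hy hzy
      omega)
    hcol
    (by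
      rintro b' ⟨z, hz, rfl⟩
      have hzy : z ≠ y := fun h0 => hyW (h0 ▸ hz.1)
      have h1 := pos_lo (β := β) (N := N) (θ := θ) z
      have h2 := E.pos_hi hθ (hW z hz.1)
      have h3 := E.sep F hqN hθ (hW z hz.1) hy hzy
      have h4 := F.lo (pos β N θ z)
      have h5 := F.hi (pos β N θ z)
      dsimp only
      omega)
  refine p.mono ?_ ?_
  · rw [Set.image_insert_eq]
  · rintro z (rfl | ⟨w, hw, rfl⟩)
    · refine ⟨y, ⟨Set.mem_insert _ _, ?_⟩, rfl⟩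
      rintro rfl
      exact hyW hb
    · exact ⟨w, ⟨Set.mem_insert_of_mem _ hw.1, hw.2⟩, rfl⟩

theorem Sys.step_fwd (S : Sys c v m N K q s) (F : Psi c v N K q f) (E : Enum f N θ β)
    (hθ : 1 ≤ θ) (hm : 20 * (θ * N) ≤ K * N) {x y : ℕ × ℕ} (hx : Valid N x) (hy : Valid N y)
    (h1 : x.1 < y.1) (h2 : (N : ℤ) ∣ (y.2 : ℤ) - x.2 - 1) :
    c s(v (pos β N θ y), v (pos β N θ x)) =
      c s(v (f (pos β N θ y)), v (f (pos β N θ y) + 1)) := by
  have h3 : x.1 * θ + x.2 % θ < y.1 * θ + y.2 % θ := by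
    have a1 := Nat.mod_lt x.2 (by omega : θ > 0)
    have a2 : (x.1 + 1) * θ ≤ y.1 * θ := Nat.mul_le_mul_right _ h1
    have a3 : (x.1 + 1) * θ = x.1 * θ + θ := by ring
    omega
  have h4 := E.pos_lt hθ hx hy h3
  have h5 := pos_lo (β := β) (N := N) (θ := θ) x
  have h6 := E.pos_hi hθ hy
  apply S.tstep F
  · have e : pos β N θ y - pos β N θ x - 1 =
        N * (5 * (β (y.1 * θ + y.2 % θ) - β (x.1 * θ + x.2 % θ))) + ((y.2 : ℤ) - x.2 - 1) := by
      unfold pos; push_cast; ring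
    rw [e]
    exact dvd_add (dvd_mul_right _ _) h2
  · omega
  · have : ((20 * (θ * N) : ℕ) : ℤ) ≤ ((K * N : ℕ) : ℤ) := by exact_mod_cast hm
    omega

theorem Sys.step_cross (S : Sys c v m N K q s) (F : Psi c v N K q f) (E : Enum f N θ β)
    (hθ : 1 ≤ θ) (hm : 20 * (θ * N) ≤ K * N) {x y : ℕ × ℕ} (hx : Valid N x) (hy : Valid N y)
    (h1 : y.1 < x.1) (h2 : (N : ℤ) ∣ (y.2 : ℤ) - x.2 + 1 - 2 * q) :
    c s(v (pos β N θ y), v (pos β N θ x)) =
      c s(v (f (pos β N θ y)), v (f (pos β N θ y) + 1)) := by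
  have hN := S.hN
  have h3 : y.1 * θ + y.2 % θ < x.1 * θ + x.2 % θ := by
    have a1 := Nat.mod_lt y.2 (by omega : θ > 0)
    have a2 : (y.1 + 1) * θ ≤ x.1 * θ := Nat.mul_le_mul_right _ h1
    have a3 : (y.1 + 1) * θ = y.1 * θ + θ := by ring
    omega
  have h4 := E.pos_lt hθ hy hx h3
  have h5 := pos_lo (β := β) (N := N) (θ := θ) y
  have h6 := E.pos_hi hθ hx
  have hm' : (m : ℤ) + 2 * q = K * N + 3 * N + 2 := by exact_mod_cast S.hm
  have hm'' : ((20 * (θ * N) : ℕ) : ℤ) ≤ ((K * N : ℕ) : ℤ) := by exact_mod_cast hm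
  apply S.tstep_cross F
  · have e : pos β N θ y + m - pos β N θ x - 1 =
        N * (5 * (β (y.1 * θ + y.2 % θ) - β (x.1 * θ + x.2 % θ)) + K + 3) +
          ((y.2 : ℤ) - x.2 + 1 - 2 * q) := by
      have : (m : ℤ) = K * N + 3 * N + 2 - 2 * q := by omega
      rw [this]
      unfold pos; push_cast; ring
    rw [e]
    exact dvd_add (dvd_mul_right _ _) h2
  · push_cast at *; omega
  · push_cast at *; omega

end Pool.Agent.Helper72.Rainbow
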