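import Mathlib
import Pool.Agent.Helper72.RainbowWalk

/-!
The contradiction: the walk winds `w₀` times around the cycle.
-/

namespace Pool.Agent.Helper72.Rainbow

open SimpleGraph

variable {V C : Type*} {c : Sym2 V → C} {v : ℤ → V} {m N K q s : ℕ} {f : ℤ → ℤ}
  {β : ℕ → ℕ} {θ : ℕ}

/-- labels of the walk -/
def lab0 (N q i : ℕ) : ℕ × ℕ := (0, oseq (2 * q) N i)
/-- labels of the walk -/
def lab1 (N q i : ℕ) : ℕ × ℕ := (1, (oseq (2 * q) N i + 1) % N)
/-- labels of the walk -/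
def lab2 (N q i : ℕ) : ℕ × ℕ := (2, (oseq (2 * q) N i + 2) % N)

/-- labels visited up to winding `i` -/
def vis (N q i : ℕ) : Set (ℕ × ℕ) :=
  {x | (∃ j ≤ i, x = lab0 N q j) ∨ (∃ j ≤ i, x = lab1 N q j) ∨ (∃ j < i, x = lab2 N q j)}

theorem valid_lab0 (hN : 0 < N) (i : ℕ) : Valid N (lab0 N q i) :=
  ⟨by simp [lab0], oseq_lt hN i⟩
theorem valid_lab1 (hN : 0 < N) (i : ℕ) : Valid N (lab1 N q i) :=
  ⟨by simp [lab1], Nat.mod_lt _ hN⟩
theorem valid_lab2 (hN : 0 < N) (i : ℕ) : Valid N (lab2 N q i) :=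
  ⟨by simp [lab2], Nat.mod_lt _ hN⟩

theorem valid_vis (hN : 0 < N) {i : ℕ} {x : ℕ × ℕ} (hx : x ∈ vis N q i) : Valid N x := by
  rcases hx with ⟨j, -, rfl⟩ | ⟨j, -, rfl⟩ | ⟨j, -, rfl⟩
  · exact valid_lab0 hN j
  · exact valid_lab1 hN j
  · exact valid_lab2 hN j

theorem mod_add_inj {a b k : ℕ} (ha : a < N) (hb : b < N) (h : (a + k) % N = (b + k) % N) :
    a = b :=
  Nat.ModEq.eq_of_lt_of_lt (Nat.ModEq.add_right_cancel' k h) ha hb

theorem lab0_inj (hN : 0 < N) {i j : ℕ} (hij : j < i) (hi : i < N) : lab0 N q i ≠ lab0 N q j := by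
  intro h
  exact oseq_inj hN hij hi (congrArg Prod.snd h).symm

theorem lab1_inj (hN : 0 < N) {i j : ℕ} (hij : j < i) (hi : i < N) : lab1 N q i ≠ lab1 N q j := by
  intro h
  exact oseq_inj hN hij hi (mod_add_inj (oseq_lt hN j) (oseq_lt hN i) (congrArg Prod.snd h).symm)

theorem lab2_inj (hN : 0 < N) {i j : ℕ} (hij : j < i) (hi : i < N) : lab2 N q i ≠ lab2 N q j := by
  intro h
  exact oseq_inj hN hij hi (mod_add_inj (oseq_lt hN j) (oseq_lt hN i) (congrArg Prod.snd h).symm)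

theorem dvd01 (i : ℕ) : (N : ℤ) ∣ ((lab1 N q i).2 : ℤ) - (lab0 N q i).2 - 1 := by
  have h : (lab1 N q i).2 ≡ (lab0 N q i).2 + 1 [MOD N] := Nat.mod_modEq _ _
  have := (Nat.modEq_iff_dvd.1 h.symm)
  push_cast at this
  rwa [sub_sub]

theorem dvd12 (i : ℕ) : (N : ℤ) ∣ ((lab2 N q i).2 : ℤ) - (lab1 N q i).2 - 1 := by
  have h1 : (lab2 N q i).2 ≡ (lab0 N q i).2 + 2 [MOD N] := Nat.mod_modEq _ _
  have h2 : (lab1 N q i).2 ≡ (lab0 N q i).2 + 1 [MOD N] := Nat.mod_modEq _ _
  have h : (lab2 N q i).2 ≡ (lab1 N q i).2 + 1 [MOD N] := h1.trans ((h2.add_right 1).symm)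
  have := (Nat.modEq_iff_dvd.1 h.symm)
  push_cast at this
  rwa [sub_sub]

theorem dvd20 {i : ℕ} (h : N / Nat.gcd (2 * q) N ∣ i + 1) :
    (N : ℤ) ∣ ((lab0 N q (i + 1)).2 : ℤ) - (lab2 N q i).2 + 1 - 2 * q := by
  have h1 : (lab2 N q i).2 ≡ (lab0 N q i).2 + 2 [MOD N] := Nat.mod_modEq _ _
  have h2 := oseq_succ (2 * q) N i
  rw [if_pos h] at h2
  have h3 := Nat.modEq_iff_dvd.1 h1
  have h4 := Nat.modEq_iff_dvd.1 h2
  have e : ((lab0 N q (i + 1)).2 : ℤ) - (lab2 N q i).2 + 1 - 2 * q =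
      ((((lab0 N q i).2 + 2 : ℕ) : ℤ) - (lab2 N q i).2) -
        (((oseq (2 * q) N i + 2 * q + 1 : ℕ) : ℤ) - oseq (2 * q) N (i + 1)) := by
    simp only [lab0]; push_cast; ring
  rw [e]
  exact dvd_sub h3 h4

theorem dvd10 {i : ℕ} (h : ¬ N / Nat.gcd (2 * q) N ∣ i + 1) :
    (N : ℤ) ∣ ((lab0 N q (i + 1)).2 : ℤ) - (lab1 N q i).2 + 1 - 2 * q := by
  have h1 : (lab1 N q i).2 ≡ (lab0 N q i).2 + 1 [MOD N] := Nat.mod_modEq _ _
  have h2 := oseq_succ (2 * q) N i
  rw [if_neg h] at h2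
  have h3 := Nat.modEq_iff_dvd.1 h1
  have h4 := Nat.modEq_iff_dvd.1 h2
  have e : ((lab0 N q (i + 1)).2 : ℤ) - (lab1 N q i).2 + 1 - 2 * q =
      ((((lab0 N q i).2 + 1 : ℕ) : ℤ) - (lab1 N q i).2) -
        (((oseq (2 * q) N i + 2 * q + 0 : ℕ) : ℤ) - oseq (2 * q) N (i + 1)) := by
    simp only [lab0]; push_cast; ring
  rw [e]
  exact dvd_sub h3 h4

theorem Sys.main_path (S : Sys c v m N K q s) (F : Psi c v N K q f) (E : Enum f N θ β)
    (hθ : 1 ≤ θ) (hm : 20 * (θ * N) ≤ m) (hK : 20 * (θ * N) ≤ K * N) (i : ℕ) (hi : i < N) :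
    PathL c v f β N θ (lab0 N q 0) (lab1 N q i) (2 * i + 1 + i / (N / Nat.gcd (2 * q) N))
      (vis N q i) := by
  have hN : 0 < N := by omega
  induction i with
  | zero =>
    have p0 : PathL c v f β N θ (lab0 N q 0) (lab0 N q 0) 0 {lab0 N q 0} := by
      have := RPz.nil (c := c) (v := v) (pos β N θ (lab0 N q 0))
      refine RPz.mono this ?_ (Set.empty_subset _)
      rw [Set.image_singleton]
    have p1 := S.append F E hθ hm p0
      (by rintro z hz; rw [Set.mem_singleton_iff] at hz; rw [hz]; exact valid_lab0 hN 0)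
      (valid_lab1 hN 0) (y := lab1 N q 0)
      (by rw [Set.mem_singleton_iff]; intro h; simpa [lab0, lab1] using congrArg Prod.fst h)
      rfl
      (S.step_fwd F E hθ hK (valid_lab0 hN 0) (valid_lab1 hN 0) (by simp [lab0, lab1]) (dvd01 0))
    simp only [Nat.mul_zero, Nat.zero_div, Nat.add_zero]
    refine p1.mono ?_
    rintro x (rfl | hx)
    · right; left; exact ⟨0, le_rfl, rfl⟩
    · rw [Set.mem_singleton_iff] at hx
      left; exact ⟨0, le_rfl, hx⟩
  | succ i ih =>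
    have p0 := ih (by omega)
    have hbase : lab0 N q 0 ∈ vis N q i := Or.inl ⟨0, Nat.zero_le _, rfl⟩
    have nv0 : lab0 N q (i + 1) ∉ vis N q i := by
      rintro (⟨j, hj, h⟩ | ⟨j, hj, h⟩ | ⟨j, hj, h⟩)
      · exact lab0_inj hN (by omega) hi h
      · simpa [lab0, lab1] using congrArg Prod.fst h
      · simpa [lab0, lab2] using congrArg Prod.fst h
    have nv1 : lab1 N q (i + 1) ∉ vis N q i := by
      rintro (⟨j, hj, h⟩ | ⟨j, hj, h⟩ | ⟨j, hj, h⟩)
      · simpa [lab0, lab1] using congrArg Prod.fst h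
      · exact lab1_inj hN (by omega) hi h
      · simpa [lab1, lab2] using congrArg Prod.fst h
    have nv2 : lab2 N q i ∉ vis N q i := by
      rintro (⟨j, hj, h⟩ | ⟨j, hj, h⟩ | ⟨j, hj, h⟩)
      · simpa [lab0, lab2] using congrArg Prod.fst h
      · simpa [lab1, lab2] using congrArg Prod.fst h
      · exact lab2_inj hN (by omega) (by omega) h
    have n02 : lab0 N q (i + 1) ≠ lab2 N q i := by
      intro h; simpa [lab0, lab2] using congrArg Prod.fst h
    have n12 : lab1 N q (i + 1) ≠ lab2 N q i := by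
      intro h; simpa [lab1, lab2] using congrArg Prod.fst h
    have n10 : lab1 N q (i + 1) ≠ lab0 N q (i + 1) := by
      intro h; simpa [lab1, lab0] using congrArg Prod.fst h
    have hsub : vis N q i ⊆ vis N q (i + 1) := by
      rintro x (⟨j, hj, h⟩ | ⟨j, hj, h⟩ | ⟨j, hj, h⟩)
      · exact Or.inl ⟨j, by omega, h⟩
      · exact Or.inr (Or.inl ⟨j, by omega, h⟩)
      · exact Or.inr (Or.inr ⟨j, by omega, h⟩)
    rw [Nat.succ_div]
    by_cases hd : N / Nat.gcd (2 * q) N ∣ i + 1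
    · rw [if_pos hd]
      have p1 := S.append F E hθ hm p0 (fun z hz => valid_vis hN hz) (valid_lab2 hN i) nv2 hbase
        (S.step_fwd F E hθ hK (valid_lab1 hN i) (valid_lab2 hN i) (by simp [lab1, lab2]) (dvd12 i))
      have p2 := S.append F E hθ hm p1
        (by
          rintro z (rfl | hz)
          · exact valid_lab2 hN i
          · exact valid_vis hN hz)
        (valid_lab0 hN (i + 1))
        (by
          rintro (h | h)
          · exact n02 h
          · exact nv0 h)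
        (Set.mem_insert_of_mem _ hbase)
        (S.step_cross F E hθ hK (valid_lab2 hN i) (valid_lab0 hN (i + 1)) (by simp [lab0, lab2])
          (dvd20 hd))
      have p3 := S.append F E hθ hm p2
        (by
          rintro z (rfl | rfl | hz)
          · exact valid_lab0 hN (i + 1)
          · exact valid_lab2 hN i
          · exact valid_vis hN hz)
        (valid_lab1 hN (i + 1))
        (by
          rintro (h | h | h)
          · exact n10 h
          · exact n12 h
          · exact nv1 h)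
        (Set.mem_insert_of_mem _ (Set.mem_insert_of_mem _ hbase))
        (S.step_fwd F E hθ hK (valid_lab0 hN (i + 1)) (valid_lab1 hN (i + 1))
          (by simp [lab0, lab1]) (dvd01 (i + 1)))
      have e : 2 * (i + 1) + 1 + (i / (N / Nat.gcd (2 * q) N) + 1) =
          2 * i + 1 + i / (N / Nat.gcd (2 * q) N) + 1 + 1 + 1 := by ring
      rw [e]
      refine p3.mono ?_
      rintro x (rfl | rfl | rfl | hx)
      · exact Or.inr (Or.inl ⟨i + 1, le_rfl, rfl⟩)
      · exact Or.inl ⟨i + 1, le_rfl, rfl⟩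
      · exact Or.inr (Or.inr ⟨i, by omega, rfl⟩)
      · exact hsub hx
    · rw [if_neg hd]
      have p2 := S.append F E hθ hm p0 (fun z hz => valid_vis hN hz)
        (valid_lab0 hN (i + 1)) nv0 hbase
        (S.step_cross F E hθ hK (valid_lab1 hN i) (valid_lab0 hN (i + 1)) (by simp [lab0, lab1])
          (dvd10 hd))
      have p3 := S.append F E hθ hm p2
        (by
          rintro z (rfl | hz)
          · exact valid_lab0 hN (i + 1)
          · exact valid_vis hN hz)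
        (valid_lab1 hN (i + 1))
        (by
          rintro (h | h)
          · exact n10 h
          · exact nv1 h)
        (Set.mem_insert_of_mem _ hbase)
        (S.step_fwd F E hθ hK (valid_lab0 hN (i + 1)) (valid_lab1 hN (i + 1))
          (by simp [lab0, lab1]) (dvd01 (i + 1)))
      have e : 2 * (i + 1) + 1 + (i / (N / Nat.gcd (2 * q) N) + 0) =
          2 * i + 1 + i / (N / Nat.gcd (2 * q) N) + 1 + 1 := by ring
      rw [e]
      refine p3.mono ?_
      rintro x (rfl | rfl | hx)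
      · exact Or.inr (Or.inl ⟨i + 1, le_rfl, rfl⟩)
      · exact Or.inl ⟨i + 1, le_rfl, rfl⟩
      · exact hsub hx

end Pool.Agent.Helper72.Rainbow
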