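import Mathlib
import Pool.Agent.Helper72.RainbowMain

/-!
Final contradiction for a single coprime length.
-/

namespace Pool.Agent.Helper72.Rainbow

open SimpleGraph

variable {V C : Type*} {c : Sym2 V → C} {v : ℤ → V} {m N K q s : ℕ} {f : ℤ → ℤ}
  {β : ℕ → ℕ} {θ : ℕ}

theorem Sys.final (S : Sys c v m N K q s) (F : Psi c v N K q f) (E : Enum f N θ β)
    (hθ : 1 ≤ θ) (hK : 20 * (θ * N) + 2 * N ≤ K * N) (i : ℕ) (hi : i < N)
    (hw : (N : ℤ) ∣ ((i : ℤ) + 1) * m - 2) : False := by
  have hN : 0 < N := by omega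
  have hq := S.hq
  have hs := S.hs
  have hNq := S.hN
  have hmN := S.hm
  have P := S.per
  have hmZ : (m : ℤ) + 2 * q = K * N + 3 * N + 2 := by exact_mod_cast hmN
  have p := S.main_path F E hθ (by omega) (by omega) i hi
  obtain ⟨G, hG⟩ : ∃ G, G = i / (N / Nat.gcd (2 * q) N) := ⟨_, rfl⟩
  rw [← hG] at p
  -- the landing vertex
  have hd12 := dvd12 (N := N) (q := q) i
  have hl2 := (valid_lab2 (q := q) hN i).2
  have hl1 := (valid_lab1 (q := q) hN i).2
  set ρ : ℕ := (lab2 N q i).2 with hρ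
  set T : ℕ := θ * N with hT
  obtain ⟨r, hr⟩ : ∃ r : ℤ, r = 20 * T + 2 * N + ρ := ⟨_, rfl⟩
  have hx1 := pos_lo (β := β) (N := N) (θ := θ) (lab1 N q i)
  have hx2 := E.pos_hi hθ (valid_lab1 (q := q) hN i)
  have hb1 := pos_lo (β := β) (N := N) (θ := θ) (lab0 N q 0)
  have hb2 := E.pos_hi hθ (valid_lab0 (q := q) hN 0)
  rw [← hT] at hx2 hb2
  have hfr1 := F.lo r
  have hfr2 := F.hi r
  have hKN : ((20 * T + 2 * N : ℕ) : ℤ) ≤ ((K * N : ℕ) : ℤ) := by exact_mod_cast hK
  push_cast at hKN hx2 hb2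
  have hTN : (T : ℤ) = θ * N := by rw [hT]; push_cast; ring
  have p1 := RPz.cons P p r (f r)
    (by
      rintro a' ⟨z, hz, rfl⟩
      have h1 := pos_lo (β := β) (N := N) (θ := θ) z
      have h2 := E.pos_hi hθ (valid_vis hN hz)
      rw [← hT] at h2
      push_cast at h2
      omega)
    (by
      apply S.tstep F
      · have e : r - pos β N θ (lab1 N q i) - 1 =
            N * (20 * θ - 5 * β ((lab1 N q i).1 * θ + (lab1 N q i).2 % θ)) +
              ((ρ : ℤ) - (lab1 N q i).2 - 1) := by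
          rw [hr, hTN]; unfold pos; push_cast; ring
        rw [e]
        exact dvd_add (dvd_mul_right _ _) hd12
      · omega
      · push_cast; omega)
    (by
      rintro b' ⟨z, hz, rfl⟩
      have h1 := pos_lo (β := β) (N := N) (θ := θ) z
      have h2 := E.pos_hi hθ (valid_vis hN hz.1)
      rw [← hT] at h2
      push_cast at h2
      have h4 := F.lo (pos β N θ z)
      have h5 := F.hi (pos β N θ z)
      dsimp only
      omega)
  -- arcs
  obtain ⟨t, ht1, ht2⟩ : ∃ t : ℕ, t < N ∧ (N : ℤ) ∣ pos β N θ (lab0 N q 0) + m - r - 1 - t := by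
    refine ⟨((pos β N θ (lab0 N q 0) + m - r - 1) % (N : ℤ)).toNat, ?_, ?_⟩
    · have h1 := Int.emod_lt_of_pos (pos β N θ (lab0 N q 0) + m - r - 1) (by omega : (0 : ℤ) < N)
      have h2 := Int.emod_nonneg (pos β N θ (lab0 N q 0) + m - r - 1) (by omega : (N : ℤ) ≠ 0)
      omega
    · have h2 := Int.emod_nonneg (pos β N θ (lab0 N q 0) + m - r - 1) (by omega : (N : ℤ) ≠ 0)
      rw [Int.toNat_of_nonneg h2]
      exact Int.dvd_self_sub_emod
  have p2 := p1.fwd P t
    (by
      rintro a' (ha' | ⟨z, hz, rfl⟩)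
      · omega
      · have h1 := pos_lo (β := β) (N := N) (θ := θ) z
        have h2 := E.pos_hi hθ (valid_vis hN hz)
        rw [← hT] at h2
        push_cast at h2
        omega)
    (by
      rintro b' (hb' | ⟨z, hz, rfl⟩)
      · omega
      · have h1 := pos_lo (β := β) (N := N) (θ := θ) z
        have h2 := E.pos_hi hθ (valid_vis hN hz.1)
        rw [← hT] at h2
        push_cast at h2
        have h4 := F.lo (pos β N θ z)
        have h5 := F.hi (pos β N θ z)
        dsimp only
        omega)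
    (by omega)
  have h4 := F.lo (pos β N θ (lab0 N q 0))
  have h5 := F.hi (pos β N θ (lab0 N q 0))
  have p3 := p2.close P (by omega) (f (pos β N θ (lab0 N q 0)))
    (by
      apply S.tstep_cross F
      · have e : pos β N θ (lab0 N q 0) + m - (r + t) - 1 =
          pos β N θ (lab0 N q 0) + m - r - 1 - t := by ring
        rw [e]; exact ht2
      · omega
      · push_cast; omega)
    (by
      rintro b' ((hb' | ⟨z, hz, rfl⟩) | hb')
      · omega
      · have h1 := pos_lo (β := β) (N := N) (θ := θ) z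
        have h2 := E.pos_hi hθ (valid_vis hN hz.1)
        rw [← hT] at h2
        push_cast at h2
        have h6 := F.lo (pos β N θ z)
        have h7 := F.hi (pos β N θ z)
        have h8 := E.sep F (by omega) hθ (valid_vis hN hz.1) (valid_lab0 (q := q) hN 0)
          (fun h => hz.2 h)
        dsimp only
        omega
      · simp only [Set.mem_Ico] at hb'
        omega)
  refine S.no_cycle (by omega) ?_ p3
  -- the length modulo N
  obtain ⟨x1, hx1'⟩ := ht2
  obtain ⟨x5, hx5⟩ := hw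
  have h02 : (lab2 N q i).2 ≡ oseq (2 * q) N i + 2 [MOD N] := Nat.mod_modEq _ _
  have h00 : oseq (2 * q) N i ≡ 2 * q * i + i / (N / Nat.gcd (2 * q) N) [MOD N] :=
    Nat.mod_modEq _ _
  obtain ⟨x2, hx2'⟩ := Nat.modEq_iff_dvd.1 (h02.trans (h00.add_right 2))
  rw [← hρ] at hx2'
  have hp0 : pos β N θ (lab0 N q 0) = N * (5 * β (0 * θ + 0 % θ) + 2) := by
    unfold pos lab0
    rw [oseq_zero]
    push_cast; ring
  rw [hp0] at hx1'
  rw [← hG] at hx2'
  refine ⟨x5 - (i : ℤ) * K - 3 * i + 5 * β (0 * θ + 0 % θ) - 20 * θ + x2 - x1, ?_⟩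
  push_cast at *
  rw [hr, hTN] at hx1'
  linear_combination hx5 - (i : ℤ) * hmZ + hx2' - hx1'

end Pool.Agent.Helper72.Rainbow
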