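import Mathlib
import Pool.Agent.Helper72.RainbowFinal

/-!
Lengths coprime to `N` are missing once they are large.
-/

namespace Pool.Agent.Helper72.Rainbow

open SimpleGraph

variable {V C : Type*} {c : Sym2 V → C} {v : ℤ → V} {m N K q s : ℕ} {f : ℤ → ℤ}
  {β : ℕ → ℕ} {θ : ℕ}

open Classical in
theorem exists_enum (f : ℤ → ℤ) (N θ : ℕ)
    (h : ((Finset.range (4 * θ)).filter (fun j => Bad f N θ j)).card < θ) :
    ∃ β, Enum f N θ β := by
  set G := (Finset.range (4 * θ)).filter (fun j => ¬ Bad f N θ j) with hG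
  have h1 : ((Finset.range (4 * θ)).filter (fun j => Bad f N θ j)).card + G.card = 4 * θ := by
    rw [hG, Finset.card_filter_add_card_filter_not, Finset.card_range]
  have h2 : 3 * θ < G.card := by omega
  have hmem : ∀ x ∈ G, x < 4 * θ ∧ ¬ Bad f N θ x := by
    intro x hx
    rw [hG, Finset.mem_filter, Finset.mem_range] at hx
    exact hx
  refine ⟨fun r => if hr : r < G.card then G.orderEmbOfFin rfl ⟨r, hr⟩ else 0, ?_, ?_, ?_⟩
  · intro r r' hrr hr'
    simp only [dif_pos (show r < G.card by omega), dif_pos (show r' < G.card by omega)]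
    exact (G.orderEmbOfFin rfl).strictMono hrr
  · intro r hr
    simp only [dif_pos (show r < G.card by omega)]
    exact (hmem _ (G.orderEmbOfFin_mem rfl ⟨r, by omega⟩)).1
  · intro r hr
    simp only [dif_pos (show r < G.card by omega)]
    exact (hmem _ (G.orderEmbOfFin_mem rfl ⟨r, by omega⟩)).2

theorem Sys.contra (S : Sys c v m N K q s) (h : ∀ x, IsR c v N K q x) (hθ : 1 ≤ θ)
    (hθ2 : N ≤ θ * θ) (hK : 20 * (θ * N) + 2 * N ≤ K * N) (i : ℕ) (hi : i < N)
    (hw : (N : ℤ) ∣ ((i : ℤ) + 1) * m - 2) : False := by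
  obtain ⟨f, F⟩ := S.exists_psi h
  have hN := S.hN
  have hq := S.hq
  have hs := S.hs
  have hm := S.hm
  have h1 : 5 * ((4 * θ) * N) + 3 ≤ m := by
    have : 5 * ((4 * θ) * N) = 20 * (θ * N) := by ring
    omega
  obtain ⟨β, E⟩ := exists_enum f N θ (S.few_bad F hθ (by omega) (4 * θ) h1)
  exact S.final F E hθ hK i hi hw

theorem no_rainbow_of_coprime (hodd : Odd N) (hN : 3 ≤ N) (h : ¬ HasRainbowCycle c (N + 2))
    (hco : Nat.Coprime N m) (hθ : 1 ≤ θ) (hθ2 : N ≤ θ * θ) (hm : 20 * (θ * N) + 5 * N ≤ m) :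
    ¬ HasRainbowCycle c m := by
  intro hr
  obtain ⟨v, P⟩ := exists_per hr
  have hmiss := miss_mul (by omega) h
  obtain ⟨w, hw⟩ := hodd
  -- the residue `q`
  obtain ⟨q, hqN, hqd⟩ : ∃ q : ℕ, q < N ∧ (N : ℤ) ∣ (m : ℤ) + 2 * q - 2 := by
    refine ⟨(((2 - (m : ℤ)) * (w + 1)) % (N : ℤ)).toNat, ?_, ?_⟩
    · have h1 := Int.emod_lt_of_pos ((2 - (m : ℤ)) * (w + 1)) (by omega : (0 : ℤ) < N)
      have h2 := Int.emod_nonneg ((2 - (m : ℤ)) * (w + 1)) (by omega : (N : ℤ) ≠ 0)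
      omega
    · have h2 := Int.emod_nonneg ((2 - (m : ℤ)) * (w + 1)) (by omega : (N : ℤ) ≠ 0)
      rw [Int.toNat_of_nonneg h2]
      have h3 : (N : ℤ) ∣ (2 - (m : ℤ)) * (w + 1) - ((2 - (m : ℤ)) * (w + 1)) % N :=
        Int.dvd_self_sub_emod
      obtain ⟨t, ht⟩ := h3
      refine ⟨2 - m - 2 * t, ?_⟩
      have hw' : (N : ℤ) = 2 * w + 1 := by exact_mod_cast hw
      have h4 : ((2 - (m : ℤ)) * (w + 1)) % N = (2 - (m : ℤ)) * (w + 1) - N * t := by linarith
      rw [h4]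
      linear_combination (m - 2 : ℤ) * hw'
  obtain ⟨t, ht⟩ := hqd
  have hNpos : (0 : ℤ) < N := by omega
  have ht0 : 0 < t := by
    by_contra hcon
    push Not at hcon
    have : (N : ℤ) * t ≤ 0 := mul_nonpos_of_nonneg_of_nonpos hNpos.le hcon
    omega
  obtain ⟨T, rfl⟩ : ∃ T : ℕ, t = T := ⟨t.toNat, by omega⟩
  have hT : m + 2 * q = T * N + 2 := by
    have : ((m + 2 * q : ℕ) : ℤ) = ((T * N + 2 : ℕ) : ℤ) := by
      push_cast; linear_combination ht
    exact_mod_cast this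
  have hq1 : 1 ≤ q := by
    by_contra hcon
    have hq0 : q = 0 := by omega
    rw [hq0] at hT
    have : m = T * N + 2 := by omega
    exact hmiss T (by omega) (this ▸ hr)
  have hTθ : 20 * θ + 5 ≤ T := by
    by_contra hcon
    push Not at hcon
    have h1 : (T + 1) * N ≤ (20 * θ + 5) * N := Nat.mul_le_mul_right _ hcon
    have h2 : (20 * θ + 5) * N = 20 * (θ * N) + 5 * N := by ring
    have h3 : (T + 1) * N = T * N + N := by ring
    omega
  obtain ⟨K, rfl⟩ : ∃ K, T = K + 3 := ⟨T - 3, by omega⟩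
  have S : Sys c v m N K q (N - q) :=
    { per := P
      miss := hmiss
      hq := hq1
      hs := by omega
      hN := by omega
      hK := by omega
      hm := by rw [hT]; ring }
  have hKN : 20 * (θ * N) + 2 * N ≤ K * N := by
    have h1 : (20 * θ + 2) * N ≤ K * N := Nat.mul_le_mul_right _ (by omega)
    have h2 : (20 * θ + 2) * N = 20 * (θ * N) + 2 * N := by ring
    omega
  -- the winding number
  obtain ⟨i, hi, hid⟩ : ∃ i : ℕ, i < N ∧ (N : ℤ) ∣ ((i : ℤ) + 1) * m - 2 := by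
    have hco' : IsCoprime (N : ℤ) (m : ℤ) := Nat.isCoprime_iff_coprime.2 hco
    obtain ⟨a, b, hab⟩ := hco'
    refine ⟨((2 * b - 1) % (N : ℤ)).toNat, ?_, ?_⟩
    · have h1 := Int.emod_lt_of_pos (2 * b - 1) hNpos
      have h2 := Int.emod_nonneg (2 * b - 1) hNpos.ne'
      omega
    · have h2 := Int.emod_nonneg (2 * b - 1) hNpos.ne'
      rw [Int.toNat_of_nonneg h2]
      have h3 : (N : ℤ) ∣ (2 * b - 1) - (2 * b - 1) % N := Int.dvd_self_sub_emod
      obtain ⟨t', ht'⟩ := h3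
      refine ⟨-2 * a - t' * m, ?_⟩
      have h4 : (2 * b - 1) % (N : ℤ) = (2 * b - 1) - N * t' := by linarith
      rw [h4]
      linear_combination 2 * hab
  rcases S.allR_or_allL hco with hR | hL
  · exact S.contra hR hθ hθ2 hKN i hi hid
  · exact S.reflect.contra (allL_reflect hL) hθ hθ2 hKN i hi hid

end Pool.Agent.Helper72.Rainbow
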