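import Mathlib
import Pool.Agent.Helper72.RainbowCoprime

/-!
All large lengths are missing.
-/

namespace Pool.Agent.Helper72.Rainbow

open SimpleGraph

variable {V C : Type*} {c : Sym2 V → C} {m N : ℕ} {θ : ℕ}

/-- for odd `N`, a prescribed sum `S` can be written as a sum of two numbers coprime to `N`,
the first one being in a prescribed interval of length `N` -/
theorem exists_units (hodd : Odd N) (S M : ℕ) (hS : M + N ≤ S) :
    ∃ a b : ℕ, a + b = S ∧ M ≤ a ∧ a < M + N ∧ Nat.Coprime N a ∧ Nat.Coprime N b := by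
  have hN : 0 < N := hodd.pos
  have hpair : ((N.primeFactors : Finset ℕ) : Set ℕ).Pairwise
      (Function.onFun Nat.Coprime (fun p : ℕ => p)) := by
    intro p hp p' hp' hne
    have h1 := Nat.prime_of_mem_primeFactors (Finset.mem_coe.1 hp)
    have h2 := Nat.prime_of_mem_primeFactors (Finset.mem_coe.1 hp')
    exact (Nat.coprime_primes h1 h2).2 hne
  obtain ⟨k, hk⟩ := Nat.chineseRemainderOfFinset
    (fun p => if S % p = 1 then 2 else 1) (fun p => p) N.primeFactors
    (fun p hp => (Nat.prime_of_mem_primeFactors hp).ne_zero) hpair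
  -- choose `a ≡ k` modulo `N`
  obtain ⟨a, ha1, ha2, ha3⟩ : ∃ a, M ≤ a ∧ a < M + N ∧ a ≡ k [MOD N] := by
    refine ⟨M + (k + M * (N - 1)) % N, by omega, ?_, ?_⟩
    · have := Nat.mod_lt (k + M * (N - 1)) hN
      omega
    · have h1 : M + (k + M * (N - 1)) % N ≡ M + (k + M * (N - 1)) [MOD N] :=
        Nat.ModEq.add_left _ (Nat.mod_modEq _ _)
      have h2 : M + (k + M * (N - 1)) = k + M * N := by
        obtain ⟨n', rfl⟩ : ∃ n', N = n' + 1 := ⟨N - 1, by omega⟩
        simp only [Nat.add_sub_cancel]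
        ring
      rw [h2] at h1
      refine h1.trans ?_
      have h3 : k + M * N ≡ k + 0 [MOD N] :=
        Nat.ModEq.add_left _ ((Nat.modEq_zero_iff_dvd).2 (dvd_mul_left _ _))
      exact h3
  refine ⟨a, S - a, by omega, ha1, ha2, ?_, ?_⟩
  · rw [Nat.coprime_iff_gcd_eq_one]
    by_contra hcon
    obtain ⟨p, hp, hpd⟩ := Nat.exists_prime_and_dvd hcon
    have hpN : p ∣ N := hpd.trans (Nat.gcd_dvd_left _ _)
    have hpa : p ∣ a := hpd.trans (Nat.gcd_dvd_right _ _)
    have hmem : p ∈ N.primeFactors := Nat.mem_primeFactors.2 ⟨hp, hpN, hN.ne'⟩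
    have hp3 : 3 ≤ p := by
      have h2 := hp.two_le
      have : p ≠ 2 := by
        rintro rfl
        exact (Nat.not_even_iff_odd.2 hodd) (even_iff_two_dvd.2 hpN)
      omega
    have h1 : a ≡ (if S % p = 1 then 2 else 1) [MOD p] := (ha3.of_dvd hpN).trans (hk p hmem)
    have h2 : a ≡ 0 [MOD p] := (Nat.modEq_zero_iff_dvd).2 hpa
    have h3 := (h2.symm.trans h1)
    split_ifs at h3
    · have := Nat.ModEq.eq_of_lt_of_lt h3 (by omega) (by omega)
      omega
    · have := Nat.ModEq.eq_of_lt_of_lt h3 (by omega) (by omega)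
      omega
  · rw [Nat.coprime_iff_gcd_eq_one]
    by_contra hcon
    obtain ⟨p, hp, hpd⟩ := Nat.exists_prime_and_dvd hcon
    have hpN : p ∣ N := hpd.trans (Nat.gcd_dvd_left _ _)
    have hpa : p ∣ S - a := hpd.trans (Nat.gcd_dvd_right _ _)
    have hmem : p ∈ N.primeFactors := Nat.mem_primeFactors.2 ⟨hp, hpN, hN.ne'⟩
    have hp3 : 3 ≤ p := by
      have h2 := hp.two_le
      have : p ≠ 2 := by
        rintro rfl
        exact (Nat.not_even_iff_odd.2 hodd) (even_iff_two_dvd.2 hpN)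
      omega
    have h1 : a ≡ (if S % p = 1 then 2 else 1) [MOD p] := (ha3.of_dvd hpN).trans (hk p hmem)
    have h2 : a ≡ S [MOD p] := (Nat.modEq_iff_dvd' (by omega)).2 hpa
    have h3 : S ≡ (if S % p = 1 then 2 else 1) [MOD p] := h2.symm.trans h1
    split_ifs at h3 with h4
    · have h5 : S % p = 2 % p := h3
      rw [h4, Nat.mod_eq_of_lt (by omega)] at h5
      omega
    · have h5 : S % p = 1 % p := h3
      rw [Nat.mod_eq_of_lt (show 1 < p by omega)] at h5
      exact h4 h5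

theorem no_rainbow_large (hodd : Odd N) (hN : 3 ≤ N) (h : ¬ HasRainbowCycle c (N + 2))
    (hθ : 1 ≤ θ) (hθ2 : N ≤ θ * θ) (hm : 40 * (θ * N) + 11 * N ≤ m) :
    ¬ HasRainbowCycle c m := by
  have hθN : 3 ≤ θ * N := le_trans hN (Nat.le_mul_of_pos_left N hθ)
  obtain ⟨a, b, h1, h2, h3, h4, h5⟩ := exists_units hodd (m + 2) (20 * (θ * N) + 5 * N) (by omega)
  have ha := no_rainbow_of_coprime hodd hN h h4 hθ hθ2 h2
  have hb := no_rainbow_of_coprime hodd hN h h5 hθ hθ2 (by omega)
  obtain ⟨a', rfl⟩ : ∃ a', a = a' + 2 := ⟨a - 2, by omega⟩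
  obtain ⟨b', rfl⟩ : ∃ b', b = b' + 2 := ⟨b - 2, by omega⟩
  have := miss_add (by omega) (by omega) ha hb
  have e : a' + b' + 2 = m := by omega
  rwa [e] at this

end Pool.Agent.Helper72.Rainbow
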